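import Pool.Agent.H86.LS.Main
import Pool.Agent.H7.Bir.Open

/-!
# LS Open: the main theorem in the form `GGLOpen`
-/

set_option autoImplicit false

open MvPolynomial

noncomputable section

namespace Pool.Agent.H86.LS

open Pool.Agent.H17 (PN VanishesAt ZariskiClosedIn HolomorphicInto puncturedDisc)
open Pool.Agent.H62.FC (Homog)
open Pool.Agent.H62.SA (locVar OnBd)
open Pool.Agent.H17LG.Variety (FunField IsLogGeneralType)
open Pool.Agent.H13.SM (conTan cone)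
open Pool.Agent.H17EF (projVar IsHolomorphicMap)
open Pool.Agent.H7.Bir (GGLOpen)

variable {N s : ℕ} {P : Ideal (MvPolynomial (Fin (N + 1)) ℂ)} [P.IsPrime] {z : Fin 2 → FunField P} {Λ : AddSubgroup ℂ} {u : PN N → ℂ ⧸ Λ}
  {H : Fin s → MvPolynomial (Fin (N + 1)) ℂ} {d : Fin s → ℕ} {B : Set (ℂ ⧸ Λ)} {Z : Set (PN N)}

theorem eq_two_of_basis {K : Type} [Field K] [Algebra ℂ K] {w : ℕ} (h : ∃ z : Fin 2 → K, IsTranscendenceBasis ℂ z)
    (hw : ∃ z : Fin w → K, IsTranscendenceBasis ℂ z) : w = 2 := by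
  obtain ⟨z, hz⟩ := h
  obtain ⟨z', hz'⟩ := hw
  have h1 := hz.lift_cardinalMk_eq_trdeg
  have h2 := hz'.lift_cardinalMk_eq_trdeg
  rw [← h1] at h2
  have h3 : ((w : ℕ) : Cardinal) = ((2 : ℕ) : Cardinal) := by simpa using h2
  exact_mod_cast h3

/-- The four properties for the complement of the hypersurfaces `H i = 0`. -/
theorem gglOpen (hP : Homog P) (hz : IsTranscendenceBasis ℂ z)
    (hsm : ∀ y : Fin (N + 1) → ℂ, y ≠ 0 → (∀ Q ∈ P, eval y Q = 0) → Module.finrank ℂ (conTan P y) ≤ 3)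
    (hΛ : Pool.Agent.H62.EF.Lat Λ) (hu : IsHolomorphicMap (projVar P) Λ u) (hH : ∀ i, (H i).IsHomogeneous (d i)) (hd : ∀ i, 0 < d i)
    (hHP : ∀ i, H i ∉ P) (hgt : IsLogGeneralType (K := FunField P) (k := 2) (OnBd P (fun _ : Fin 1 => ∏ i, H i)))
    (hB : B.Finite)
    (hD : (∀ f : ℂ → PN N, HolomorphicInto f Set.univ → (∀ z, f z ∈ projVar P) → (∀ i z, VanishesAt (H i) (f z)) → ∀ z w, f z = f w) ∨
      ∀ e : ℂ → PN N, IsSectionIn (projVar P) Λ u H B e → HasPole (projVar P) Λ u H B e)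
    (hZ : ZariskiClosedIn (projVar P) Z) (hZX : Z ≠ projVar P) (hfib : FibreCondition (projVar P) Λ u H B Z) :
    GGLOpen P (fun _ : Fin 1 => ∏ i, H i) ((locVar P fun _ : Fin 1 => ∏ i, H i) ∩ Z) := by
  obtain ⟨hcl, hbr, hpi, hst, -⟩ := main_four hP hz hsm hΛ hu hH hd hHP hgt hB hD hZ hZX hfib
  refine ⟨hcl.1, hcl.2, fun k _ hk => ?_, hpi, hbr, hst⟩
  obtain rfl := eq_two_of_basis ⟨z, hz⟩ hk
  exact hgt

end Pool.Agent.H86.LS
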