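import Pool.Agent.H86.LS.Lim
import Mathlib.Analysis.Complex.Liouville
import Mathlib.Analysis.Complex.Schwarz
import Mathlib.Analysis.Complex.HasPrimitives

/-!
# LS Away: there are no sections which avoid the `D i`

Choose a maximal set `I` of indices such that sections come arbitrarily near to all the `D i`, `i ∈ I`, at the same point.
A limit `x` of such sections lies in the `D i`, `i ∈ I` (Hurwitz), so by `NoLim` there is an index `j ∉ I`, and the sections which are near to `x`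
are not near to `D j` (away from the bad fibres).  Now `G j (F z)` is an entire function without zeros, so it is `exp (m h)`, and `exp (-h) F` is bounded on large discs
(maximum principle over the bad fibres), so it is almost constant (Liouville).
-/

set_option autoImplicit false

open Topology Filter Metric

namespace Pool.Agent.H86.LS

open Pool.Agent.H36.BP (EN fs wd)
open Pool.Agent.H14.PP (IsCone)
open Pool.Agent.H62.EF (Lat MN pr TorusMap Sec continuousAt_pr)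
open Pool.Agent.H62.EL (BadSet Gd isClosed_gd gd_notMem gd_mono)

variable {N s : ℕ} {X : Set (EN N)} {Λ : AddSubgroup ℂ} {u : EN N → ℂ} {B : Set ℂ} {δ : ℝ} {G : Fin s → EN N → ℂ} {m : Fin s → ℕ}

theorem near_limit {𝒰 : Ultrafilter ℕ} {F : ℕ → ℂ → EN N} {x : ℂ → EN N} {w₀ : ℂ} {r : ℝ} {φ : ℕ → ℂ → EN N} {Ψ : ℂ → EN N}
    (h : LocLim X Λ u 𝒰 F x w₀ r φ Ψ) {O : Set (EN N)} (hO : O ∈ 𝓝 (Ψ w₀)) :
    ∃ V ∈ 𝓝 w₀, ∀ᶠ n in (𝒰 : Filter ℕ), ∀ z ∈ V, φ n z ∈ O ∧ ∃ c : ℂ, c ≠ 0 ∧ φ n z = c • F n z := by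
  have hself : w₀ ∈ ball w₀ r := mem_ball_self h.pos
  obtain ⟨η, hη, hball⟩ := Metric.mem_nhds_iff.1 hO
  obtain ⟨t, ht, hconv⟩ := Metric.tendstoLocallyUniformlyOn_iff.1 h.conv (η / 2) (by positivity) w₀ hself
  have ht' : t ∈ 𝓝 w₀ := by
    rwa [IsOpen.nhdsWithin_eq isOpen_ball hself] at ht
  have hcont : ∀ᶠ z in 𝓝 w₀, dist (Ψ z) (Ψ w₀) < η / 2 := by
    have h2 := (h.dif.continuousOn.continuousAt (isOpen_ball.mem_nhds hself)).tendsto
    exact h2.eventually (ball_mem_nhds _ (by positivity))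
  refine ⟨{z | dist (Ψ z) (Ψ w₀) < η / 2} ∩ (t ∩ ball w₀ r), inter_mem hcont (inter_mem ht' (isOpen_ball.mem_nhds hself)), ?_⟩
  filter_upwards [h.app, hconv] with n hn hcn z hz
  obtain ⟨hz1, hz2, hz3⟩ := hz
  refine ⟨hball ?_, hn.2 z hz3⟩
  rw [mem_ball]
  have h4 := hcn z hz2
  have h5 := dist_triangle (φ n z) (Ψ z) (Ψ w₀)
  rw [dist_comm (φ n z) (Ψ z)] at h5
  have h6 : dist (Ψ z) (Ψ w₀) < η / 2 := hz1
  linarith

theorem q_small (E : LData X Λ u B δ G m) {𝒰 : Ultrafilter ℕ} {F : ℕ → ℂ → EN N} {x : ℂ → EN N} (hx : IsLim X Λ u B 𝒰 F x) (i : Fin s)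
    {w₀ : ℂ} (hw₀ : w₀ ∉ B) (h0 : G i (x w₀) = 0) {ε : ℝ} (hε : 0 < ε) :
    ∃ V ∈ 𝓝 w₀, ∀ᶠ n in (𝒰 : Filter ℕ), ∀ z ∈ V, ‖G i (F n z)‖ < ε * ‖F n z‖ ^ m i := by
  obtain ⟨r, φ, Ψ, h⟩ := hx w₀ hw₀
  obtain ⟨hΨX, hΨu, c, hc, hΨc⟩ := h.mem w₀ (mem_ball_self h.pos)
  have hΨ0 := norm_pos_iff.2 (ne_zero_of_mem E.cone hΨX)
  have hO : {y : EN N | ‖G i y‖ < ε * ‖y‖ ^ m i} ∈ 𝓝 (Ψ w₀) := by
    have h1 : IsOpen {y : EN N | ‖G i y‖ < ε * ‖y‖ ^ m i} :=
      isOpen_lt (E.dif i).continuous.norm (continuous_const.mul (continuous_norm.pow _))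
    refine h1.mem_nhds ?_
    show ‖G i (Ψ w₀)‖ < ε * ‖Ψ w₀‖ ^ m i
    rw [hΨc, E.hom, h0, mul_zero, norm_zero, ← hΨc]
    positivity
  obtain ⟨V, hV, h1⟩ := near_limit h hO
  refine ⟨V, hV, h1.mono fun n hn z hz => ?_⟩
  obtain ⟨h2, c', hc', h3⟩ := hn z hz
  have h4 : ‖G i (φ n z)‖ < ε * ‖φ n z‖ ^ m i := h2
  rw [h3, E.hom, norm_mul, norm_pow, norm_smul, mul_pow] at h4
  have h5 : 0 < ‖c'‖ ^ m i := pow_pos (norm_pos_iff.2 hc') _
  by_contra hcon
  push Not at hcon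
  have h6 := mul_le_mul_of_nonneg_left hcon h5.le
  linarith

theorem q_zero (E : LData X Λ u B δ G m) {𝒰 : Ultrafilter ℕ} {F : ℕ → ℂ → EN N} {x : ℂ → EN N} (hx : IsLim X Λ u B 𝒰 F x) (i : Fin s)
    {w₀ : ℂ} (hw₀ : w₀ ∉ B) {z : ℕ → ℂ} (hz : Tendsto z 𝒰 (𝓝 w₀))
    (hs : ∀ ε : ℝ, 0 < ε → ∀ᶠ n in (𝒰 : Filter ℕ), ‖G i (F n (z n))‖ < ε * ‖F n (z n)‖ ^ m i) : G i (x w₀) = 0 := by
  by_contra hcon
  obtain ⟨r, φ, Ψ, h⟩ := hx w₀ hw₀
  obtain ⟨hΨX, hΨu, c, hc, hΨc⟩ := h.mem w₀ (mem_ball_self h.pos)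
  have hΨ0 := norm_pos_iff.2 (ne_zero_of_mem E.cone hΨX)
  have hG0 : 0 < ‖G i (Ψ w₀)‖ := by
    rw [norm_pos_iff, hΨc, E.hom]
    exact mul_ne_zero (pow_ne_zero _ hc) hcon
  set ε : ℝ := ‖G i (Ψ w₀)‖ / (2 * ‖Ψ w₀‖ ^ m i) with hε
  have hε0 : 0 < ε := by positivity
  have hO : {y : EN N | ε * ‖y‖ ^ m i < ‖G i y‖} ∈ 𝓝 (Ψ w₀) := by
    have h1 : IsOpen {y : EN N | ε * ‖y‖ ^ m i < ‖G i y‖} :=
      isOpen_lt (continuous_const.mul (continuous_norm.pow _)) (E.dif i).continuous.norm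
    refine h1.mem_nhds ?_
    show ε * ‖Ψ w₀‖ ^ m i < ‖G i (Ψ w₀)‖
    have h2 : ε * ‖Ψ w₀‖ ^ m i = ‖G i (Ψ w₀)‖ / 2 := by
      rw [hε]
      field_simp
    rw [h2]
    linarith
  obtain ⟨V, hV, h1⟩ := near_limit h hO
  obtain ⟨n, ⟨h2, h3⟩, h4⟩ := ((h1.and (hz.eventually hV)).and (hs ε hε0)).exists
  obtain ⟨h5, c', hc', h6⟩ := h2 _ h3
  have h7 : ε * ‖φ n (z n)‖ ^ m i < ‖G i (φ n (z n))‖ := h5
  rw [h6, E.hom, norm_mul, norm_pow, norm_smul, mul_pow] at h7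
  have h8 : 0 < ‖c'‖ ^ m i := pow_pos (norm_pos_iff.2 hc') _
  have h9 := mul_lt_mul_of_pos_left h4 h8
  linarith

/-- a nowhere vanishing entire function is an exponential -/
theorem exists_log {g : ℂ → ℂ} (hg : Differentiable ℂ g) (h0 : ∀ z, g z ≠ 0) : ∃ h : ℂ → ℂ, Differentiable ℂ h ∧ ∀ z, g z = Complex.exp (h z) := by
  have hq : Differentiable ℂ fun z => deriv g z / g z := by
    intro z
    exact ((hg.deriv z).div (hg z) (h0 z))
  obtain ⟨L, hL⟩ := hq.isExactOn_univ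
  have hL' : ∀ z, HasDerivAt L (deriv g z / g z) z := fun z => hL z trivial
  have hconst : ∀ z, HasDerivAt (fun z => g z * Complex.exp (-L z)) 0 z := by
    intro z
    have h1 := (hg z).hasDerivAt.mul ((hL' z).neg.cexp)
    have h2 : deriv g z * Complex.exp (-L z) + g z * (Complex.exp (-L z) * -(deriv g z / g z)) = 0 := by
      have h3 := h0 z
      field_simp
      ring
    have h4 : HasDerivAt (fun z => g z * Complex.exp (-L z))
        (deriv g z * Complex.exp (-L z) + g z * (Complex.exp (-L z) * -(deriv g z / g z))) z := h1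
    rw [h2] at h4
    exact h4
  have hc : ∀ z, g z * Complex.exp (-L z) = g 0 * Complex.exp (-L 0) := by
    intro z
    exact is_const_of_deriv_eq_zero (fun z => (hconst z).differentiableAt) (fun z => (hconst z).deriv) z 0
  obtain ⟨a, ha⟩ : ∃ a, Complex.exp a = g 0 * Complex.exp (-L 0) :=
    ⟨Complex.log (g 0 * Complex.exp (-L 0)), Complex.exp_log (mul_ne_zero (h0 0) (Complex.exp_ne_zero _))⟩
  refine ⟨fun z => a + L z, fun z => (hL' z).differentiableAt.const_add a, fun z => ?_⟩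
  rw [Complex.exp_add, ha, ← hc z, mul_assoc, ← Complex.exp_add, neg_add_cancel, Complex.exp_zero, mul_one]

/-- a section which avoids `D j` has a lift with `G j = 1` -/
theorem exists_norm (E : LData X Λ u B δ G m) (j : Fin s) {F : ℂ → EN N} (hF : F ∈ SG X Λ u G) :
    ∃ K : ℂ → EN N, Differentiable ℂ K ∧ (∀ z, G j (K z) = 1) ∧ ∀ z, ∃ c : ℂ, c ≠ 0 ∧ K z = c • F z := by
  obtain ⟨h, hh, hGh⟩ := exists_log ((E.dif j).comp hF.1.1) (fun z => hF.2 j z)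
  have hm : (m j : ℂ) ≠ 0 := by exact_mod_cast (E.pos j).ne'
  refine ⟨fun z => Complex.exp (-(h z / m j)) • F z, ((hh.div_const _).neg.cexp).smul hF.1.1, fun z => ?_,
    fun z => ⟨_, Complex.exp_ne_zero _, rfl⟩⟩
  have h1 : G j (F z) = Complex.exp (h z) := hGh z
  rw [E.hom, h1, ← Complex.exp_nat_mul, ← Complex.exp_add]
  have h2 : (m j : ℂ) * -(h z / m j) + h z = 0 := by
    field_simp
    ring
  rw [h2, Complex.exp_zero]

/-- the bounds for `K` from a lower bound for `G j (F z)` -/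
theorem norm_bound (E : LData X Λ u B δ G m) {j : Fin s} {ε₀ : ℝ} (hε₀ : 0 < ε₀) {y k : EN N} (hk : G j k = 1) {c : ℂ} (hc : c ≠ 0) (hkc : k = c • y)
    (hy : ε₀ * ‖y‖ ^ m j ≤ ‖G j y‖) : ‖k‖ ≤ max 1 (1 / ε₀) := by
  have h2 : ε₀ * ‖k‖ ^ m j ≤ 1 := by
    have h3 : ‖G j k‖ = 1 := by rw [hk, norm_one]
    have h4 : G j k = c ^ m j * G j y := by rw [hkc, E.hom]
    rw [← h3, h4, norm_mul, norm_pow, hkc, norm_smul, mul_pow]
    have h6 := mul_le_mul_of_nonneg_left hy (by positivity : 0 ≤ ‖c‖ ^ m j)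
    linarith
  by_contra hcon
  push Not at hcon
  have h7 : 1 < ‖k‖ := lt_of_le_of_lt (le_max_left _ _) hcon
  have h8 : ‖k‖ ≤ ‖k‖ ^ m j := le_self_pow₀ h7.le (E.pos j).ne'
  have h9 : 1 / ε₀ < ‖k‖ := lt_of_le_of_lt (le_max_right _ _) hcon
  rw [div_lt_iff₀ hε₀] at h9
  nlinarith

/-- Liouville's theorem -/
theorem liouville (E : LData X Λ u B δ G m) (j : Fin s) {𝒰 : Ultrafilter ℕ} {F : ℕ → ℂ → EN N} (hF : ∀ n, F n ∈ SG X Λ u G) {ε₀ : ℝ} (hε₀ : 0 < ε₀)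
    (hq : ∀ K : Set ℂ, IsCompact K → K ⊆ Gd B δ → ∀ᶠ n in (𝒰 : Filter ℕ), ∀ z ∈ K, ε₀ * ‖F n z‖ ^ m j ≤ ‖G j (F n z)‖) : False := by
  have hδ := E.bad.pos
  choose K hKd hKG hKF using fun n => exists_norm E j (hF n)
  set C : ℝ := max 1 (1 / ε₀) with hC
  have hC0 : 0 < C := lt_of_lt_of_le one_pos (le_max_left _ _)
  have hbd : ∀ R : ℝ, ∀ᶠ n in (𝒰 : Filter ℕ), ∀ z ∈ ball (0 : ℂ) R, ‖K n z‖ ≤ C := by
    intro R
    have hcomp : IsCompact (closedBall (0 : ℂ) (R + 2 * δ) ∩ Gd B δ) := (isCompact_closedBall _ _).inter_right (isClosed_gd δ)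
    filter_upwards [hq _ hcomp Set.inter_subset_right] with n hn z hz
    rw [mem_ball_zero_iff] at hz
    have hgood : ∀ w ∈ Gd B δ, ‖w‖ ≤ R + 2 * δ → ‖K n w‖ ≤ C := by
      intro w hw hwR
      obtain ⟨c, hc, hcw⟩ := hKF n w
      exact norm_bound E hε₀ (hKG n w) hc hcw (hn w ⟨mem_closedBall_zero_iff.2 hwR, hw⟩)
    by_cases hzG : z ∈ Gd B δ
    · exact hgood z hzG (by linarith)
    have h1 : ∃ b ∈ B, ‖z - b‖ < δ := by
      by_contra hcon
      push Not at hcon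
      exact hzG hcon
    obtain ⟨b, hb, hbz⟩ := h1
    refine Complex.norm_le_of_forall_mem_frontier_norm_le (U := ball b δ) isBounded_ball (hKd n).diffContOnCl (fun w hw => ?_)
      (subset_closure (by rw [mem_ball, dist_eq_norm]; exact hbz))
    rw [frontier_ball b hδ.ne', mem_sphere, dist_eq_norm] at hw
    refine hgood w (fun b' hb' => ?_) ?_
    · by_cases hbb : b' = b
      · rw [hbb, hw]
      · have h2 := E.bad.sep b' hb' b hb hbb
        have h3 : b' - b = (w - b) - (w - b') := by ring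
        rw [h3] at h2
        have h4 := norm_sub_le (w - b) (w - b')
        linarith
    · have h5 : w = z + (w - b) - (z - b) := by ring
      have h6 := norm_sub_le (z + (w - b)) (z - b)
      have h7 := norm_add_le z (w - b)
      rw [← h5] at h6
      linarith
  -- the limit
  obtain ⟨k, -, hk⟩ := (isCompact_closedBall (0 : EN N) C).ultrafilter_le_nhds (𝒰.map fun n => K n 0) (by
    rw [Filter.le_principal_iff, Ultrafilter.coe_map, Filter.mem_map]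
    filter_upwards [hbd 1] with n hn
    exact mem_closedBall_zero_iff.2 (hn 0 (mem_ball_self one_pos)))
  have hk0 : Tendsto (fun n => K n 0) 𝒰 (𝓝 k) := hk
  have hkz : ∀ z, Tendsto (fun n => K n z) 𝒰 (𝓝 k) := by
    intro z
    have h1 : Tendsto (fun n => dist (K n z) (K n 0)) 𝒰 (𝓝 0) := by
      rw [Metric.tendsto_nhds]
      intro η hη
      set R : ℝ := (3 * C) * (‖z‖ + 1) / η + ‖z‖ + 1 with hR
      have hR0 : 0 < R := by positivity
      filter_upwards [hbd R] with n hn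
      rw [Real.dist_eq, sub_zero, abs_of_nonneg dist_nonneg]
      have hzR : z ∈ ball (0 : ℂ) R := by
        rw [mem_ball_zero_iff]
        have : 0 ≤ (3 * C) * (‖z‖ + 1) / η := by positivity
        linarith
      have h2 := Complex.dist_le_div_mul_dist_of_mapsTo_ball (f := K n) (c := 0) (R₁ := R) (R₂ := 3 * C) (z := z) (hKd n).differentiableOn
        (fun w hw => by
          rw [mem_closedBall, dist_eq_norm]
          have h3 := norm_sub_le (K n w) (K n 0)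
          have h4 := hn w hw
          have h5 := hn 0 (mem_ball_self hR0)
          linarith) hzR
      rw [dist_zero_right] at h2
      refine lt_of_le_of_lt h2 ?_
      rw [div_mul_eq_mul_div, div_lt_iff₀ hR0]
      have h3 : η * ((3 * C) * (‖z‖ + 1) / η) = (3 * C) * (‖z‖ + 1) := by
        field_simp
      have h4 : η * R = (3 * C) * (‖z‖ + 1) + η * (‖z‖ + 1) := by
        rw [hR, add_assoc, mul_add, h3]
      have h5 : 0 < η * (‖z‖ + 1) := by positivity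
      rw [h4]
      linarith
    have h2 : Tendsto (fun n => K n z - K n 0) 𝒰 (𝓝 0) := by
      rw [tendsto_zero_iff_norm_tendsto_zero]
      simpa only [dist_eq_norm] using h1
    have h3 := h2.add hk0
    simp only [sub_add_cancel, zero_add] at h3
    exact h3
  have hkG : G j k = 1 := by
    have h1 : Tendsto (fun n => G j (K n 0)) 𝒰 (𝓝 (G j k)) := ((E.dif j).continuous.tendsto _).comp hk0
    simp only [hKG] at h1
    exact tendsto_nhds_unique h1 tendsto_const_nhds |>.symm ▸ rfl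
  have hkne : k ≠ 0 := by
    rintro rfl
    have h1 := E.hom j 0 0
    rw [smul_zero, zero_pow (E.pos j).ne', zero_mul] at h1
    rw [h1] at hkG
    exact zero_ne_one hkG
  have hKX : ∀ n z, K n z ∈ X := by
    intro n z
    obtain ⟨c, hc, h⟩ := hKF n z
    rw [h]
    exact E.cone.smul_mem _ ((hF n).1.2.1 z) c hc
  have hKu : ∀ n z, u (K n z) - z ∈ Λ := by
    intro n z
    obtain ⟨c, hc, h⟩ := hKF n z
    rw [h]
    have h1 := E.tor.smul (F n z) ((hF n).1.2.1 z) c hc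
    have h2 := Λ.add_mem h1 ((hF n).1.2.2 z)
    convert h2 using 1
    ring
  have hkX : k ∈ X := by
    have h2 : k ∈ insert 0 X := E.cone.closed.mem_of_tendsto hk0 (Eventually.of_forall fun n => Or.inr (hKX n 0))
    rcases h2 with h2 | h2
    · exact absurd h2 hkne
    · exact h2
  have hku : ∀ z : ℂ, u k - z ∈ Λ := by
    intro z
    apply Pool.Agent.H62.EF.Lat.mem_of_close E.lat
    intro ε hε
    obtain ⟨δ₁, hδ₁, hδ2⟩ := Pool.Agent.H62.EF.TorusMap.unif E.cone E.tor hε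
    have h1 : Tendsto (fun n => pr (K n z)) 𝒰 (𝓝 (pr k)) := (continuousAt_pr hkne).tendsto.comp (hkz z)
    obtain ⟨n, hn⟩ := (Metric.tendsto_nhds.1 h1 δ₁ hδ₁).exists
    obtain ⟨l, hl, hl2⟩ := hδ2 (K n z) (hKX n z) k hkX hn
    refine ⟨(u (K n z) - z) - l, Λ.sub_mem (hKu n z) hl, ?_⟩
    have h2 : u k - z - ((u (K n z) - z) - l) = -(u (K n z) - u k - l) := by ring
    rw [h2, norm_neg]
    exact hl2
  obtain ⟨ε, hε, hdisc⟩ := E.lat.discrete
  have h1 := Λ.sub_mem (hku 0) (hku ((ε / 2 : ℝ) : ℂ))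
  have h2 : ((ε / 2 : ℝ) : ℂ) ∈ Λ := by
    convert h1 using 1
    ring
  have h3 := hdisc _ h2 (by
    rw [Complex.norm_real, Real.norm_of_nonneg (by positivity)]
    linarith)
  have h4 : (ε / 2 : ℝ) = 0 := by exact_mod_cast h3
  linarith

/-- **There are no sections which avoid the `D i`.** -/
theorem sg_empty (E : LData X Λ u B δ G m) (hno : NoLim X Λ u B G) : SG X Λ u G = ∅ := by
  classical
  rw [Set.eq_empty_iff_forall_notMem]
  intro F₀ hF₀
  have hδ := E.bad.pos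
  set Φ : Set (Finset (Fin s)) := {I | ∀ ε : ℝ, 0 < ε → ∃ F ∈ SG X Λ u G, ∃ z ∈ Gd B δ, ∀ i ∈ I, ‖G i (F z)‖ < ε * ‖F z‖ ^ m i} with hΦ
  have hΦ0 : ∅ ∈ Φ := by
    intro ε _
    obtain ⟨z, hz⟩ := E.bad.nonempty
    exact ⟨F₀, hF₀, z, gd_mono (by linarith) hz, fun i hi => absurd hi (Finset.notMem_empty i)⟩
  obtain ⟨I, hI⟩ := (Set.toFinite Φ).exists_maximal ⟨∅, hΦ0⟩
  have hIΦ : I ∈ Φ := hI.prop
  obtain ⟨R, hR0, hR⟩ := E.lat.cocompact
  have hbig : ∀ n : ℕ, ∃ F ∈ SG X Λ u G, ∃ z ∈ Gd B δ, ‖z‖ ≤ R ∧ ∀ i ∈ I, ‖G i (F z)‖ < 1 / ((n : ℝ) + 1) * ‖F z‖ ^ m i := by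
    intro n
    obtain ⟨F, hF, z, hz, hb⟩ := hIΦ (1 / ((n : ℝ) + 1)) (by positivity)
    obtain ⟨l, hl, hlR⟩ := hR z
    refine ⟨fun ζ => F (ζ + l), sg_trans hF hl, z - l, ?_, hlR, fun i hi => ?_⟩
    · rw [← BadSet.gd_add E.bad δ hl, sub_add_cancel]
      exact hz
    · show ‖G i (F (z - l + l))‖ < 1 / ((n : ℝ) + 1) * ‖F (z - l + l)‖ ^ m i
      rw [sub_add_cancel]
      exact hb i hi
  choose F hF zc hzG hzR hzc using hbig
  set 𝒰 : Ultrafilter ℕ := hyperfilter ℕ with h𝒰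
  have hle : (𝒰 : Filter ℕ) ≤ atTop := Nat.hyperfilter_le_atTop
  obtain ⟨w₀, -, hw₀⟩ := (isCompact_closedBall (0 : ℂ) R).ultrafilter_le_nhds (𝒰.map zc) (by
    rw [Filter.le_principal_iff, Ultrafilter.coe_map, Filter.mem_map]
    exact Filter.univ_mem' fun n => mem_closedBall_zero_iff.2 (hzR n))
  have hwt : Tendsto zc 𝒰 (𝓝 w₀) := hw₀
  have hw₀G : w₀ ∈ Gd B δ := (isClosed_gd (B := B) δ).mem_of_tendsto hwt (Eventually.of_forall hzG)
  have hw₀B := gd_notMem hδ hw₀G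
  obtain ⟨x, hxX, hx⟩ := exists_limit E 𝒰 hF
  have hxI : ∀ i ∈ I, ∀ z, z ∉ B → G i (x z) = 0 := by
    intro i hi
    have h1 : G i (x w₀) = 0 := by
      refine q_zero E hx i hw₀B hwt fun ε hε => ?_
      have h2 : ∀ᶠ n : ℕ in (𝒰 : Filter ℕ), 1 / ((n : ℝ) + 1) < ε :=
        (tendsto_one_div_add_atTop_nhds_zero_nat.mono_left hle).eventually_lt_const hε
      filter_upwards [h2] with n hn
      refine (hzc n i hi).trans_le ?_
      gcongr
    rcases limit_dichotomy E 𝒰 hF hx i with h | h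
    · exact h
    · exact absurd h1 (h w₀ hw₀B)
  by_cases huniv : ∃ j, j ∉ I
  swap
  · push Not at huniv
    exact hno 𝒰 F hF x hx fun i => hxI i (huniv i)
  obtain ⟨j, hj⟩ := huniv
  have hins : insert j I ∉ Φ := by
    intro h
    have h1 : I ≤ insert j I := Finset.subset_insert j I
    have h2 : insert j I ≤ I := hI.le_of_ge h h1
    exact hj (h2 (Finset.mem_insert_self j I))
  have hins' : ∃ ε₀ : ℝ, 0 < ε₀ ∧ ∀ F ∈ SG X Λ u G, ∀ z ∈ Gd B δ, ∃ i ∈ insert j I, ε₀ * ‖F z‖ ^ m i ≤ ‖G i (F z)‖ := by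
    by_contra hcon
    push Not at hcon
    exact hins fun ε hε => hcon ε hε
  obtain ⟨ε₀, hε₀, hins'⟩ := hins'
  refine liouville E j (𝒰 := 𝒰) hF hε₀ fun K hK hKG => ?_
  have h1 : ∀ᶠ n in (𝒰 : Filter ℕ), ∀ z ∈ K, ∀ i ∈ I, ‖G i (F n z)‖ < ε₀ * ‖F n z‖ ^ m i := by
    refine hK.induction_on (p := fun S => ∀ᶠ n in (𝒰 : Filter ℕ), ∀ z ∈ S, ∀ i ∈ I, ‖G i (F n z)‖ < ε₀ * ‖F n z‖ ^ m i) ?_ ?_ ?_ ?_
    · exact Eventually.of_forall fun n z hz => absurd hz (Set.notMem_empty z)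
    · exact fun S T hST hT => hT.mono fun n hn z hz => hn z (hST hz)
    · intro S T hS hT
      filter_upwards [hS, hT] with n h1 h2 z hz
      rcases hz with hz | hz
      · exact h1 z hz
      · exact h2 z hz
    · intro w hw
      have hwB : w ∉ B := gd_notMem hδ (hKG hw)
      have h2 : ∀ i ∈ I, ∃ V ∈ 𝓝 w, ∀ᶠ n in (𝒰 : Filter ℕ), ∀ z ∈ V, ‖G i (F n z)‖ < ε₀ * ‖F n z‖ ^ m i :=
        fun i hi => q_small E hx i hwB (hxI i hi w hwB) hε₀
      choose! V hV h3 using h2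
      refine ⟨⋂ i ∈ I, V i, nhdsWithin_le_nhds ((Filter.biInter_finset_mem I).2 hV), ?_⟩
      have h4 : ∀ᶠ n in (𝒰 : Filter ℕ), ∀ i ∈ I, ∀ z ∈ V i, ‖G i (F n z)‖ < ε₀ * ‖F n z‖ ^ m i := by
        rw [Filter.eventually_all_finset]
        exact h3
      filter_upwards [h4] with n hn z hz i hi
      exact hn i hi z (Set.mem_iInter₂.1 hz i hi)
  filter_upwards [h1] with n hn z hz
  obtain ⟨i, hi, h2⟩ := hins' (F n) (hF n) z (hKG hz)
  rcases Finset.mem_insert.1 hi with rfl | hi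
  · exact h2
  · exact absurd h2 (not_le.2 (hn z hz i hi))

end Pool.Agent.H86.LS
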