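import Pool.Agent.H86.LS.Class
import Pool.Agent.H19Q.ClassQ

/-!
# LS BaseQ: affine surfaces over an elliptic curve as basic surfaces of the class `LogClass`
-/

set_option autoImplicit false

open MvPolynomial

noncomputable section

namespace Pool.Agent.H86.LS

open Pool.Agent.H17 (PN VanishesAt ZariskiClosedIn HolomorphicInto puncturedDisc)
open Pool.Agent.H62.FC (Homog)
open Pool.Agent.H62.SA (locVar OnBd)
open Pool.Agent.H17LG.Variety (FunField IsLogGeneralType)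
open Pool.Agent.H13.SM (conTan cone)
open Pool.Agent.H17EF (projVar IsHolomorphicMap)
open Pool.Agent.H7.Bir (GGLOpen)
open Pool.Agent.H19Q (QSurface)

variable {N s : ℕ}

theorem locVar_const (P : Ideal (MvPolynomial (Fin (N + 1)) ℂ)) {G : Fin s → MvPolynomial (Fin (N + 1)) ℂ} (m₀ : Fin s)
    {g : MvPolynomial (Fin (N + 1)) ℂ} (h : ∀ m, G m = g) : locVar P G = locVar P (fun _ : Fin 1 => g) := by
  ext x
  constructor
  · rintro ⟨h1, m, h2⟩
    exact ⟨h1, 0, by rw [h m] at h2; exact h2⟩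
  · rintro ⟨h1, j, h2⟩
    exact ⟨h1, m₀, by rw [h m₀]; exact h2⟩

theorem onBd_const (P : Ideal (MvPolynomial (Fin (N + 1)) ℂ)) [P.IsPrime] {G : Fin s → MvPolynomial (Fin (N + 1)) ℂ} (m₀ : Fin s)
    {g : MvPolynomial (Fin (N + 1)) ℂ} (h : ∀ m, G m = g) (k : ℕ) : OnBd P G (k := k) = OnBd P (fun _ : Fin 1 => g) (k := k) := by
  funext E
  apply propext
  constructor
  · rintro ⟨j, h1, h2, h3⟩
    exact ⟨j, h1, h2, fun _ => by have := h3 m₀; rwa [h m₀] at this⟩
  · rintro ⟨j, h1, h2, h3⟩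
    exact ⟨j, h1, h2, fun m => by rw [h m]; exact h3 0⟩

theorem gglOpen_const {P : Ideal (MvPolynomial (Fin (N + 1)) ℂ)} [P.IsPrime] {G : Fin s → MvPolynomial (Fin (N + 1)) ℂ} (m₀ : Fin s)
    {g : MvPolynomial (Fin (N + 1)) ℂ} (h : ∀ m, G m = g) {Ξ : Set (PN N)} (H : GGLOpen P (fun _ : Fin 1 => g) Ξ) : GGLOpen P G Ξ := by
  refine ⟨?_, ?_, ?_, ?_, ?_, ?_⟩
  · rw [locVar_const P m₀ h]
    exact H.closed
  · rw [locVar_const P m₀ h]
    exact H.proper
  · intro w h1 h2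
    rw [onBd_const P m₀ h]
    exact H.logGeneralType w h1 h2
  · rw [locVar_const P m₀ h]
    exact H.picard
  · rw [locVar_const P m₀ h]
    exact H.brody
  · intro Q hQ h1 h2 h3 w h4 h5
    rw [onBd_const Q m₀ h]
    rw [locVar_const Q m₀ h] at h3
    exact H.strongly Q h1 h2 h3 w h4 h5

/-- `U` is the complement, in a smooth projective surface `X`, of the hypersurfaces `H i = 0`, and `X`, `H`, a holomorphic map `u` from `X` to an elliptic curve
satisfy `IsAffineOver`. -/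
structure IsAffineBase (U : QSurface) : Prop where
  /-- `X` is smooth -/
  smooth : ∀ y : Fin (U.N + 1) → ℂ, y ≠ 0 → (∀ Q ∈ U.P, eval y Q = 0) → Module.finrank ℂ (conTan U.P y) ≤ 3
  /-- the map `u` and the forms `H` -/
  data : ∃ (w : Fin 2 → ℂ) (u : PN U.N → ℂ ⧸ AddSubgroup.closure (Set.range w)) (t : ℕ) (H : Fin t → MvPolynomial (Fin (U.N + 1)) ℂ),
    IsAffineOver U.P w u H ∧ ∀ m, U.G m = ∏ i, H i

/-- the four properties for the basic surfaces -/
theorem IsAffineBase.main {U : QSurface} (h : IsAffineBase U) (hgt : U.LogGeneralType) : ∃ Ξ : Set (PN U.N), GGLOpen U.P U.G Ξ := by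
  obtain ⟨w, u, t, H, h1, h2⟩ := h.data
  obtain ⟨x, -, m₀, -⟩ := U.nonempty
  have hgt' : IsLogGeneralType (K := FunField U.P) (k := 2) (OnBd U.P (fun _ : Fin 1 => ∏ i, H i)) := by
    unfold QSurface.LogGeneralType at hgt
    rwa [onBd_const U.P m₀ h2] at hgt
  obtain ⟨Ξ, hΞ⟩ := h1.step U.homog U.dim h.smooth hgt'
  exact ⟨Ξ, gglOpen_const m₀ h2 hΞ⟩

end Pool.Agent.H86.LS
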