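import Pool.Agent.H86.LS.Lim
import Pool.Agent.H36.BPL.CurveK
import Pool.Agent.H17EF.Bridge

/-!
# LS NoD: a limit of the sections is not in all the `D i` if there are no entire curves in the intersection of the `D i`

The intersection is compact and contains no entire curves, so by Kwack's theorem a holomorphic map to it, defined on the complement of the discrete set `B`,
extends to an entire curve, and it is constant.
-/

set_option autoImplicit false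

open Topology Filter Metric

namespace Pool.Agent.H86.LS

open Pool.Agent.H36.BP (EN fs wd)
open Pool.Agent.H14.PP (IsCone)
open Pool.Agent.H62.EF (Lat MN pr TorusMap Sec)
open Pool.Agent.H62.EL (BadSet Gd isClosed_gd gd_notMem gd_mono)
open Pool.Agent.H17BP (Pr HolP Picard Brody)
open Pool.Agent.H36.BPL (Brody2 AffProper curve_picard2)

variable {N s : ℕ} {X : Set (EN N)} {Λ : AddSubgroup ℂ} {u : EN N → ℂ} {B : Set ℂ} {δ : ℝ} {G : Fin s → EN N → ℂ} {m : Fin s → ℕ}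

theorem lift_of_holP {f : ℂ → EN N} (hf : ∀ z, HolP f z) : ∃ F : ℂ → EN N, Differentiable ℂ F ∧ ∀ z, F z ≠ 0 ∧ Pr (F z) (f z) := by
  have h0 : ∀ z, (Pool.Agent.H17EF.LE N).symm (f z) ≠ 0 := by
    intro z h
    obtain ⟨F, -, hF0, hev⟩ := hf z
    obtain ⟨c, hc, hcz⟩ := hev.self_of_nhds
    have h1 : f z = 0 := (Pool.Agent.H17EF.LE N).symm.map_eq_zero_iff.1 h
    rw [h1] at hcz
    rcases smul_eq_zero.1 hcz.symm with h2 | h2
    · exact hc h2
    · exact hF0 h2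
  have hg : Pool.Agent.H17.HolomorphicInto (fun z => Projectivization.mk ℂ ((Pool.Agent.H17EF.LE N).symm (f z)) (h0 z)) Set.univ := by
    intro z _
    obtain ⟨F, hF, hF0, hev⟩ := hf z
    refine ⟨fun w => (Pool.Agent.H17EF.LE N).symm (F w),
      (((Pool.Agent.H17EF.LE N).symm : EN N →L[ℂ] (Fin (N + 1) → ℂ)).analyticAt _).comp hF, ?_⟩
    filter_upwards [hev, hF.continuousAt.eventually_ne hF0] with w hw hw0
    refine ⟨fun h => hw0 ((Pool.Agent.H17EF.LE N).symm.map_eq_zero_iff.1 h), ?_⟩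
    obtain ⟨c, hc, hcw⟩ := hw
    rw [Projectivization.mk_eq_mk_iff']
    exact ⟨c, by rw [hcw, map_smul]⟩
  obtain ⟨F, hF, hFg⟩ := Pool.Agent.H17EF.exists_lift hg
  refine ⟨F, hF, fun z => ?_⟩
  obtain ⟨h1, h2⟩ := hFg z
  refine ⟨fun h => h1 (by rw [h, map_zero]), ?_⟩
  rw [Projectivization.mk_eq_mk_iff'] at h2
  obtain ⟨c, hc⟩ := h2
  rw [← map_smul] at hc
  have h3 := (Pool.Agent.H17EF.LE N).symm.injective hc
  have hc0 : c ≠ 0 := by
    rintro rfl
    rw [zero_smul] at h3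
    exact h0 z (by rw [← h3, map_zero])
  exact ⟨c⁻¹, inv_ne_zero hc0, by rw [← h3, smul_smul, inv_mul_cancel₀ hc0, one_smul]⟩

theorem closed_D (E : LData X Λ u B δ G m) {y : EN N} (hy : y ∈ closure {x | x ∈ X ∧ ∀ i, G i x = 0}) (hy0 : y ≠ 0) : y ∈ X ∧ ∀ i, G i y = 0 := by
  constructor
  · have h1 : {x | x ∈ X ∧ ∀ i, G i x = 0} ⊆ insert 0 X := fun x hx => Or.inr hx.1
    have h2 := closure_minimal h1 E.cone.closed hy
    rcases h2 with h2 | h2
    · exact absurd h2 hy0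
    · exact h2
  · have h1 : {x | x ∈ X ∧ ∀ i, G i x = 0} ⊆ {x | ∀ i, G i x = 0} := fun x hx => hx.2
    have h2 : IsClosed {x : EN N | ∀ i, G i x = 0} := by
      simp only [Set.setOf_forall]
      exact isClosed_iInter fun i => isClosed_eq (E.dif i).continuous continuous_const
    exact closure_minimal h1 h2 hy

theorem picard_D (E : LData X Λ u B δ G m)
    (hno : ∀ F : ℂ → EN N, Differentiable ℂ F → (∀ z, F z ∈ X) → (∀ i z, G i (F z) = 0) → ∀ z w, ∃ c : ℂ, F z = c • F w) : Picard {x | x ∈ X ∧ ∀ i, G i x = 0} ∅ ∧ Brody {x | x ∈ X ∧ ∀ i, G i x = 0} ∅ := by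
  have hs : ∀ x ∈ {x | x ∈ X ∧ ∀ i, G i x = 0}, ∀ c : ℂ, c ≠ 0 → c • x ∈ {x | x ∈ X ∧ ∀ i, G i x = 0} := by
    rintro x ⟨hx, hx0⟩ c hc
    exact ⟨E.cone.smul_mem _ hx c hc, fun i => by rw [E.hom, hx0 i, mul_zero]⟩
  refine curve_picard2 (X := {x | x ∈ X ∧ ∀ i, G i x = 0}) (K := {x | x ∈ X ∧ ∀ i, G i x = 0}) (fun h => E.cone.zero_notMem h.1)
    (fun x hx hx0 => closed_D E hx hx0) (le_refl _) hs (fun x _ => Eventually.of_forall fun y hy => hy) (AffProper.closed _ hs) ?_ ?_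
  · intro F z₀ _ h
    exact absurd h.self_of_nhds.1 h.self_of_nhds.2
  · intro f hf hfD _ _ z w
    obtain ⟨F, hF, hFf⟩ := lift_of_holP hf
    have hFD : ∀ z, F z ∈ X ∧ ∀ i, G i (F z) = 0 := by
      intro z
      obtain ⟨-, c, hc, h⟩ := hFf z
      rw [h]
      exact hs _ (hfD z) c hc
    obtain ⟨c, hc⟩ := hno F hF (fun z => (hFD z).1) (fun i z => (hFD z).2 i) z w
    obtain ⟨h1, a, ha, h2⟩ := hFf z
    obtain ⟨h3, a', ha', h4⟩ := hFf w
    have hc0 : c ≠ 0 := by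
      rintro rfl
      rw [zero_smul] at hc
      exact h1 hc
    refine ⟨a⁻¹ * (c * a'), mul_ne_zero (inv_ne_zero ha) (mul_ne_zero hc0 ha'), ?_⟩
    have h5 : f z = a⁻¹ • F z := by rw [h2, smul_smul, inv_mul_cancel₀ ha, one_smul]
    rw [h5, hc, h4, smul_smul, smul_smul, mul_assoc]

theorem no_limit (E : LData X Λ u B δ G m)
    (hno : ∀ F : ℂ → EN N, Differentiable ℂ F → (∀ z, F z ∈ X) → (∀ i z, G i (F z) = 0) → ∀ z w, ∃ c : ℂ, F z = c • F w) {x : ℂ → EN N}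
    (hx : ∀ z₀, z₀ ∉ B → ∃ (r : ℝ) (Ψ : ℂ → EN N), 0 < r ∧ DifferentiableOn ℂ Ψ (ball z₀ r) ∧
      ∀ z ∈ ball z₀ r, Ψ z ∈ X ∧ u (Ψ z) - z ∈ Λ ∧ ∃ c : ℂ, c ≠ 0 ∧ Ψ z = c • x z)
    (h0 : ∀ i z, z ∉ B → G i (x z) = 0) : False := by
  classical
  obtain ⟨hpic, hbro⟩ := picard_D E hno
  have hδ := E.bad.pos
  have hxX : ∀ z, z ∉ B → x z ∈ X ∧ u (x z) - z ∈ Λ := by
    intro z hz
    obtain ⟨r, Ψ, hr, -, h⟩ := hx z hz
    obtain ⟨h1, h2, c, hc, h3⟩ := h z (mem_ball_self hr)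
    have h4 : x z = c⁻¹ • Ψ z := by rw [h3, smul_smul, inv_mul_cancel₀ hc, one_smul]
    have h5 : x z ∈ X := by
      rw [h4]
      exact E.cone.smul_mem _ h1 _ (inv_ne_zero hc)
    refine ⟨h5, ?_⟩
    have h6 := E.tor.smul (x z) h5 c hc
    rw [← h3] at h6
    have h7 := Λ.sub_mem h2 h6
    convert h7 using 1
    ring
  have hhol : ∀ z, z ∉ B → HolP x z := by
    intro z hz
    obtain ⟨r, Ψ, hr, hd, h⟩ := hx z hz
    refine ⟨Ψ, hd.analyticAt (isOpen_ball.mem_nhds (mem_ball_self hr)), ne_zero_of_mem E.cone (h z (mem_ball_self hr)).1, ?_⟩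
    filter_upwards [isOpen_ball.mem_nhds (mem_ball_self hr)] with w hw
    obtain ⟨-, -, c, hc, h3⟩ := h w hw
    exact ⟨c⁻¹, inv_ne_zero hc, by rw [h3, smul_smul, inv_mul_cancel₀ hc, one_smul]⟩
  -- the extension over the points of `B`
  have hnear : ∀ b ∈ B, ∀ z : ℂ, z ≠ 0 → ‖z‖ < 4 * δ → b + z ∉ B := by
    intro b hb z hz hzn hzB
    have h1 := E.bad.sep (b + z) hzB b hb (fun h => hz (by simpa using h))
    rw [add_sub_cancel_left] at h1
    linarith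
  have hext : ∀ b : ℂ, ∃ F : ℂ → EN N, b ∈ B → AnalyticAt ℂ F 0 ∧ F 0 ≠ 0 ∧ ∀ᶠ z in 𝓝[≠] (0 : ℂ), Pr (x (b + z)) (F z) := by
    intro b
    by_cases hb : b ∈ B
    swap
    · exact ⟨fun _ => 0, fun h => absurd h hb⟩
    have hin : ∀ z : ℂ, z ≠ 0 → ‖z‖ < 4 * δ → HolP (fun z => x (b + z)) z ∧ x (b + z) ∈ {x | x ∈ X ∧ ∀ i, G i x = 0} := by
      intro z hz hzn
      have h1 := hnear b hb z hz hzn
      refine ⟨?_, (hxX _ h1).1, fun i => h0 i _ h1⟩
      obtain ⟨Ψ, hΨ, hΨ0, hev⟩ := hhol _ h1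
      refine ⟨fun w => Ψ (b + w), ?_, hΨ0, ?_⟩
      · exact AnalyticAt.fun_comp (g := Ψ) (f := fun w => b + w) hΨ (analyticAt_const.add analyticAt_id)
      · have h2 : Tendsto (fun w => b + w) (𝓝 z) (𝓝 (b + z)) := (continuous_const.add continuous_id).tendsto z
        exact h2.eventually hev
    have hpt : ∃ z : ℂ, z ≠ 0 ∧ ‖z‖ < 4 * δ ∧ x (b + z) ∉ (∅ : Set (EN N)) := by
      refine ⟨((2 * δ : ℝ) : ℂ), Complex.ofReal_ne_zero.2 (by positivity), ?_, Set.notMem_empty _⟩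
      rw [Complex.norm_real, Real.norm_of_nonneg (by positivity)]
      linarith
    obtain ⟨F, hF⟩ := hpic (4 * δ) (by linarith) (fun z => x (b + z)) hin hpt
    exact ⟨F, fun _ => hF⟩
  choose F hF using hext
  set x' : ℂ → EN N := fun z => if z ∈ B then F z 0 else x z with hx'
  have hx'B : ∀ z ∈ B, x' z = F z 0 := fun z hz => if_pos hz
  have hx'n : ∀ z, z ∉ B → x' z = x z := fun z hz => if_neg hz
  have hnhds : ∀ z, z ∉ B → ∀ᶠ w in 𝓝 z, w ∉ B := by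
    intro z hz
    obtain ⟨δ', hδ', hg⟩ := E.bad.exists_gd hz
    filter_upwards [isOpen_ball.mem_nhds (mem_ball_self hδ' : z ∈ ball z δ')] with w hw hwB
    have h1 := hg w hwB
    rw [mem_ball, dist_comm, dist_eq_norm] at hw
    linarith
  have hnhdsB : ∀ b ∈ B, ∀ᶠ z in 𝓝[≠] b, z ∉ B := by
    intro b hb
    rw [eventually_nhdsWithin_iff]
    filter_upwards [isOpen_ball.mem_nhds (mem_ball_self (by linarith) : b ∈ ball b (4 * δ))] with w hw hwb
    have h1 := hnear b hb (w - b) (sub_ne_zero.2 hwb) (by rw [← dist_eq_norm]; exact hw)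
    rwa [add_sub_cancel] at h1
  have hPb : ∀ b ∈ B, ∀ᶠ z in 𝓝[≠] b, Pr (x z) (F b (z - b)) := by
    intro b hb
    have h1 := (hF b hb).2.2
    have h2 : Tendsto (fun z => z - b) (𝓝[≠] b) (𝓝[≠] 0) := by
      refine tendsto_nhdsWithin_iff.2 ⟨?_, ?_⟩
      · have h3 : Tendsto (fun z => z - b) (𝓝 b) (𝓝 (b - b)) := (continuous_id.sub continuous_const).tendsto b
        rw [sub_self] at h3
        exact h3.mono_left nhdsWithin_le_nhds
      · filter_upwards [self_mem_nhdsWithin] with z hz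
        exact sub_ne_zero.2 hz
    filter_upwards [h2.eventually h1] with z hz
    rwa [add_sub_cancel] at hz
  have hhol' : ∀ z, HolP x' z := by
    intro z
    by_cases hz : z ∈ B
    · obtain ⟨h1, h2, h3⟩ := hF z hz
      refine ⟨fun w => F z (w - z), ?_, by show F z (z - z) ≠ 0; rw [sub_self]; exact h2, ?_⟩
      · have h4 : AnalyticAt ℂ (F z) (z - z) := by rwa [sub_self]
        exact AnalyticAt.fun_comp (g := F z) (f := fun w => w - z) h4 (analyticAt_id.sub analyticAt_const)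
      · have h5 := (hPb z hz).and (hnhdsB z hz)
        rw [eventually_nhdsWithin_iff] at h5
        filter_upwards [h5] with w hw
        by_cases hwz : w = z
        · rw [hwz, hx'B z hz, sub_self]
          exact ⟨1, one_ne_zero, (one_smul _ _).symm⟩
        · rw [hx'n w (hw hwz).2]
          exact (hw hwz).1
    · obtain ⟨Ψ, hΨ, hΨ0, hev⟩ := hhol z hz
      refine ⟨Ψ, hΨ, hΨ0, ?_⟩
      filter_upwards [hev, hnhds z hz] with w hw hwB
      rw [hx'n w hwB]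
      exact hw
  have hD : ∀ z, x' z ∈ {x | x ∈ X ∧ ∀ i, G i x = 0} := by
    intro z
    by_cases hz : z ∈ B
    · obtain ⟨h1, h2, h3⟩ := hF z hz
      rw [hx'B z hz]
      refine closed_D E ?_ h2
      have h4 : Tendsto (fun w => F z (w - z)) (𝓝[≠] z) (𝓝 (F z 0)) := by
        have h5 : Tendsto (fun w => w - z) (𝓝 z) (𝓝 0) := by
          have h6 : Tendsto (fun w => w - z) (𝓝 z) (𝓝 (z - z)) := (continuous_id.sub continuous_const).tendsto z
          rwa [sub_self] at h6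
        exact (h1.continuousAt.tendsto.comp h5).mono_left nhdsWithin_le_nhds
      refine mem_closure_of_tendsto h4 ?_
      filter_upwards [hPb z hz, hnhdsB z hz] with w hw hwB
      obtain ⟨c, hc, hcw⟩ := hw
      have h6 : F z (w - z) = c⁻¹ • x w := by rw [hcw, smul_smul, inv_mul_cancel₀ hc, one_smul]
      rw [h6]
      exact ⟨E.cone.smul_mem _ (hxX w hwB).1 _ (inv_ne_zero hc), fun i => by rw [E.hom, h0 i w hwB, mul_zero]⟩
    · rw [hx'n z hz]
      exact ⟨(hxX z hz).1, fun i => h0 i z hz⟩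
  have hcon := hbro x' hhol' hD ⟨0, Set.notMem_empty _⟩
  -- the contradiction
  obtain ⟨z₀, hz₀⟩ := E.bad.nonempty
  have hz₀B : z₀ ∉ B := gd_notMem (by linarith) hz₀
  obtain ⟨ε, hε, hdisc⟩ := E.lat.discrete
  obtain ⟨w, hw1, hw2, hw3⟩ : ∃ w, w ∉ B ∧ w ≠ z₀ ∧ ‖w - z₀‖ < ε := by
    have h1 : ∀ᶠ w in 𝓝[≠] z₀, w ∉ B ∧ ‖w - z₀‖ < ε := by
      refine (((hnhds z₀ hz₀B).and ?_)).filter_mono nhdsWithin_le_nhds
      filter_upwards [isOpen_ball.mem_nhds (mem_ball_self hε : z₀ ∈ ball z₀ ε)] with w hw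
      rw [← dist_eq_norm]
      exact hw
    obtain ⟨w, ⟨h2, h3⟩, h4⟩ := (h1.and self_mem_nhdsWithin).exists
    exact ⟨w, h2, h4, h3⟩
  obtain ⟨c, hc, hcw⟩ := hcon w z₀
  rw [hx'n w hw1, hx'n z₀ hz₀B] at hcw
  have h1 := E.tor.smul (x z₀) (hxX z₀ hz₀B).1 c hc
  rw [← hcw] at h1
  have h2 := Λ.sub_mem (Λ.add_mem h1 (hxX z₀ hz₀B).2) (hxX w hw1).2
  have h3 : w - z₀ ∈ Λ := by
    convert h2 using 1
    ring
  exact hw2 (sub_eq_zero.1 (hdisc _ h3 hw3))

/-- `NoLim` if there are no entire curves in the intersection of the `D i` -/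
theorem noLim_of_noCurves (E : LData X Λ u B δ G m)
    (hno : ∀ F : ℂ → EN N, Differentiable ℂ F → (∀ z, F z ∈ X) → (∀ i z, G i (F z) = 0) → ∀ z w, ∃ c : ℂ, F z = c • F w) : NoLim X Λ u B G := by
  intro 𝒰 F _ x hx h0
  refine no_limit E hno (x := x) (fun z₀ hz₀ => ?_) h0
  obtain ⟨r, φ, Ψ, h1⟩ := hx z₀ hz₀
  exact ⟨r, Ψ, h1.pos, h1.dif, h1.mem⟩

end Pool.Agent.H86.LS
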