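import Pool.Agent.H86.LS.Lim
import Mathlib.Analysis.Complex.AbsMax

/-!
# LS Pole: a limit of the sections is not in all the `D i` if it has a pole

`ψ` is a holomorphic function near a fibre, outside of a part `D'` of the union of the `D i`, and its values on the limit tend to `∞` at a point.
The functions `ψ (F n z)` are holomorphic, they converge on a small circle, so they are bounded by the maximum principle.
-/

set_option autoImplicit false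

open Topology Filter Metric

namespace Pool.Agent.H86.LS

open Pool.Agent.H36.BP (EN fs wd)
open Pool.Agent.H14.PP (IsCone)
open Pool.Agent.H62.EF (Lat TorusMap Sec)
open Pool.Agent.H62.EL (BadSet Gd)

variable {N s : ℕ} {X : Set (EN N)} {Λ : AddSubgroup ℂ} {u : EN N → ℂ} {B : Set ℂ} {δ : ℝ} {G : Fin s → EN N → ℂ} {m : Fin s → ℕ}

/-- `ψ` is holomorphic near the fibre over `z₀`, outside of the part `D'` of the union of the `D i`, and tends to infinity at the point `z₀` of the curve `x`. -/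
structure PoleAt (X : Set (EN N)) (Λ : AddSubgroup ℂ) (u : EN N → ℂ) (B : Set ℂ) (G : Fin s → EN N → ℂ) (x : ℂ → EN N) (z₀ : ℂ) (ρ : ℝ)
    (ψ : EN N → ℂ) (D' : Set (EN N)) : Prop where
  pos : 0 < ρ
  sub : ∀ y ∈ X, y ∈ D' → ∃ i, G i y = 0
  hom : ∀ y ∈ X, ∀ c : ℂ, c ≠ 0 → ψ (c • y) = ψ y ∧ (c • y ∈ D' → y ∈ D')
  hol : ∀ y ∈ X, y ∉ D' → (∃ z ∈ ball z₀ ρ, u y - z ∈ Λ) → ∃ v : EN N → ℂ, AnalyticAt ℂ v y ∧ ∀ᶠ w in 𝓝 y, w ∈ X → ψ w = v w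
  out : ∀ z ∈ ball z₀ ρ, z ≠ z₀ → z ∉ B → x z ∉ D'
  lim : Tendsto (fun z => ‖ψ (x z)‖) (𝓝[≠] z₀) atTop

theorem isolated (E : LData X Λ u B δ G m) (z₀ : ℂ) : ∃ σ : ℝ, 0 < σ ∧ ∀ b ∈ B, b ≠ z₀ → σ ≤ ‖z₀ - b‖ := by
  by_cases h : z₀ ∈ B
  · refine ⟨8 * δ, by linarith [E.bad.pos], fun b hb hne => ?_⟩
    exact E.bad.sep z₀ h b hb (Ne.symm hne)
  · obtain ⟨δ', hδ', h1⟩ := E.bad.exists_gd h
    exact ⟨δ', hδ', fun b hb _ => h1 b hb⟩

/-- the values of `ψ` converge -/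
theorem pole_local (E : LData X Λ u B δ G m) {𝒰 : Ultrafilter ℕ} {F : ℕ → ℂ → EN N} (hF : ∀ n, F n ∈ SG X Λ u G) {x : ℂ → EN N}
    (hx : IsLim X Λ u B 𝒰 F x) {z₀ : ℂ} {ρ : ℝ} {ψ : EN N → ℂ} {D' : Set (EN N)} (P : PoleAt X Λ u B G x z₀ ρ ψ D') {w₀ : ℂ}
    (hw : w₀ ∈ ball z₀ ρ) (hne : w₀ ≠ z₀) (hwB : w₀ ∉ B) {ε : ℝ} (hε : 0 < ε) :
    ∃ V ∈ 𝓝 w₀, ∀ᶠ n in (𝒰 : Filter ℕ), ∀ z ∈ V, ‖ψ (F n z) - ψ (x w₀)‖ ≤ ε := by
  obtain ⟨r, φ, Ψ, h⟩ := hx w₀ hwB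
  have hself : w₀ ∈ ball w₀ r := mem_ball_self h.pos
  obtain ⟨hΨX, hΨu, c, hc, hΨc⟩ := h.mem w₀ hself
  have hxX : x w₀ ∈ X := by
    have h1 : x w₀ = c⁻¹ • Ψ w₀ := by rw [hΨc, smul_smul, inv_mul_cancel₀ hc, one_smul]
    rw [h1]
    exact E.cone.smul_mem _ hΨX _ (inv_ne_zero hc)
  have hΨD : Ψ w₀ ∉ D' := by
    intro h1
    rw [hΨc] at h1
    exact P.out w₀ hw hne hwB ((P.hom _ hxX c hc).2 h1)
  obtain ⟨v, hv, hvψ⟩ := P.hol _ hΨX hΨD ⟨w₀, hw, hΨu⟩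
  have hv0 : v (Ψ w₀) = ψ (x w₀) := by
    rw [← hvψ.self_of_nhds hΨX, hΨc]
    exact (P.hom _ hxX c hc).1
  have h1 : ∀ᶠ w in 𝓝 (Ψ w₀), ‖v w - ψ (x w₀)‖ < ε := by
    have h2 : Tendsto (fun w => ‖v w - ψ (x w₀)‖) (𝓝 (Ψ w₀)) (𝓝 ‖v (Ψ w₀) - ψ (x w₀)‖) :=
      (hv.continuousAt.tendsto.sub_const _).norm
    rw [hv0, sub_self, norm_zero] at h2
    exact h2.eventually_lt_const hε
  obtain ⟨η, hη, hball⟩ := Metric.eventually_nhds_iff_ball.1 (h1.and hvψ)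
  obtain ⟨t, ht, hconv⟩ := Metric.tendstoLocallyUniformlyOn_iff.1 h.conv (η / 2) (by positivity) w₀ hself
  have ht' : t ∈ 𝓝 w₀ := by
    rwa [IsOpen.nhdsWithin_eq isOpen_ball hself] at ht
  have hcont : ∀ᶠ z in 𝓝 w₀, dist (Ψ z) (Ψ w₀) < η / 2 := by
    have h2 := (h.dif.continuousOn.continuousAt (isOpen_ball.mem_nhds hself)).tendsto
    exact h2.eventually (ball_mem_nhds _ (by positivity))
  refine ⟨{z | dist (Ψ z) (Ψ w₀) < η / 2} ∩ (t ∩ ball w₀ r), inter_mem hcont (inter_mem ht' (isOpen_ball.mem_nhds hself)), ?_⟩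
  filter_upwards [h.app, hconv] with n hn hcn z hz
  obtain ⟨hz1, hz2, hz3⟩ := hz
  obtain ⟨c', hc', hφ⟩ := hn.2 z hz3
  have hFX : F n z ∈ X := (hF n).1.2.1 z
  have hφX : φ n z ∈ X := by
    rw [hφ]
    exact E.cone.smul_mem _ hFX _ hc'
  have h3 : φ n z ∈ ball (Ψ w₀) η := by
    rw [mem_ball]
    have h4 := hcn z hz2
    have h5 := dist_triangle (φ n z) (Ψ z) (Ψ w₀)
    rw [dist_comm (φ n z) (Ψ z)] at h5
    have h6 : dist (Ψ z) (Ψ w₀) < η / 2 := hz1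
    linarith
  obtain ⟨h4, h5⟩ := hball _ h3
  have h6 : ψ (F n z) = v (φ n z) := by
    rw [← h5 hφX, hφ]
    exact (P.hom _ hFX c' hc').1.symm
  rw [h6]
  exact h4.le

theorem pole_dif (E : LData X Λ u B δ G m) {F : ℂ → EN N} (hF : F ∈ SG X Λ u G) {x : ℂ → EN N}
    {z₀ : ℂ} {ρ : ℝ} {ψ : EN N → ℂ} {D' : Set (EN N)} (P : PoleAt X Λ u B G x z₀ ρ ψ D') : DifferentiableOn ℂ (fun z => ψ (F z)) (ball z₀ ρ) := by
  intro z hz
  have hFX := hF.1.2.1 z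
  have hFD : F z ∉ D' := by
    intro h
    obtain ⟨i, hi⟩ := P.sub _ hFX h
    exact hF.2 i z hi
  obtain ⟨v, hv, hvψ⟩ := P.hol _ hFX hFD ⟨z, hz, hF.1.2.2 z⟩
  have h1 : DifferentiableAt ℂ (fun z => v (F z)) z := hv.differentiableAt.comp z (hF.1.1 z)
  refine (h1.congr_of_eventuallyEq ?_).differentiableWithinAt
  filter_upwards [hF.1.1.continuous.continuousAt.eventually hvψ] with w hw
  exact hw (hF.1.2.1 w)

theorem pole_false (E : LData X Λ u B δ G m) {𝒰 : Ultrafilter ℕ} {F : ℕ → ℂ → EN N} (hF : ∀ n, F n ∈ SG X Λ u G) {x : ℂ → EN N}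
    (hx : IsLim X Λ u B 𝒰 F x) {z₀ : ℂ} {ρ : ℝ} {ψ : EN N → ℂ} {D' : Set (EN N)} (P : PoleAt X Λ u B G x z₀ ρ ψ D') : False := by
  obtain ⟨σ₀, hσ₀, hB⟩ := isolated E z₀
  set σ : ℝ := min ρ σ₀ / 2 with hσ
  have hσ0 : 0 < σ := half_pos (lt_min P.pos hσ₀)
  have hσρ : σ < ρ := by
    have := min_le_left ρ σ₀
    have := P.pos
    have : 0 < min ρ σ₀ := lt_min P.pos hσ₀
    linarith
  have hσσ : σ < σ₀ := by
    have := min_le_right ρ σ₀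
    have : 0 < min ρ σ₀ := lt_min P.pos hσ₀
    linarith
  have hnB : ∀ z ∈ closedBall z₀ σ, z ≠ z₀ → z ∉ B := by
    intro z hz hne hzB
    have h1 := hB z hzB hne
    rw [mem_closedBall, dist_comm, dist_eq_norm] at hz
    linarith
  have hbd : ∃ M : ℝ, ∀ᶠ n in (𝒰 : Filter ℕ), ∀ z ∈ sphere z₀ σ, ‖ψ (F n z)‖ ≤ M := by
    refine (isCompact_sphere z₀ σ).induction_on (p := fun S => ∃ M : ℝ, ∀ᶠ n in (𝒰 : Filter ℕ), ∀ z ∈ S, ‖ψ (F n z)‖ ≤ M) ?_ ?_ ?_ ?_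
    · exact ⟨0, Eventually.of_forall fun n z hz => absurd hz (Set.notMem_empty z)⟩
    · rintro S T hST ⟨M, hM⟩
      exact ⟨M, hM.mono fun n hn z hz => hn z (hST hz)⟩
    · rintro S T ⟨M, hM⟩ ⟨M', hM'⟩
      refine ⟨max M M', (hM.and hM').mono fun n hn z hz => ?_⟩
      rcases hz with hz | hz
      · exact (hn.1 z hz).trans (le_max_left _ _)
      · exact (hn.2 z hz).trans (le_max_right _ _)
    · intro w hw
      have hwb : w ∈ ball z₀ ρ := by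
        rw [mem_sphere] at hw
        rw [mem_ball, hw]
        exact hσρ
      have hwne : w ≠ z₀ := by
        rintro rfl
        rw [mem_sphere, dist_self] at hw
        linarith
      have hwB : w ∉ B := hnB w (sphere_subset_closedBall hw) hwne
      obtain ⟨V, hV, h1⟩ := pole_local E hF hx P hwb hwne hwB one_pos
      refine ⟨V, nhdsWithin_le_nhds hV, ‖ψ (x w)‖ + 1, h1.mono fun n hn z hz => ?_⟩
      have h2 := hn z hz
      have h3 := norm_le_norm_add_norm_sub' (ψ (F n z)) (ψ (x w))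
      linarith
  obtain ⟨M, hM⟩ := hbd
  have hin : ∀ z ∈ ball z₀ σ, ∀ᶠ n in (𝒰 : Filter ℕ), ‖ψ (F n z)‖ ≤ M := by
    intro z hz
    filter_upwards [hM] with n hn
    refine Complex.norm_le_of_forall_mem_frontier_norm_le (U := ball z₀ σ) isBounded_ball
      ((pole_dif E (hF n) P).diffContOnCl_ball (closedBall_subset_ball hσρ)) (fun w hw => ?_) (subset_closure hz)
    rw [frontier_ball z₀ hσ0.ne'] at hw
    exact hn w hw
  have hxz : ∀ z ∈ ball z₀ σ, z ≠ z₀ → ‖ψ (x z)‖ ≤ M + 1 := by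
    intro z hz hne
    obtain ⟨V, hV, h1⟩ := pole_local E hF hx P (ball_subset_ball hσρ.le hz) hne (hnB z (ball_subset_closedBall hz) hne) one_pos
    obtain ⟨n, h2, h3⟩ := (h1.and (hin z hz)).exists
    have h4 := h2 z (mem_of_mem_nhds hV)
    have h5 := norm_le_norm_add_norm_sub' (ψ (x z)) (ψ (F n z))
    rw [norm_sub_rev] at h4
    linarith
  have h1 : ∀ᶠ z in 𝓝[≠] z₀, M + 1 < ‖ψ (x z)‖ := P.lim.eventually_gt_atTop _
  have h2 : ∀ᶠ z in 𝓝[≠] z₀, z ∈ ball z₀ σ := nhdsWithin_le_nhds (ball_mem_nhds _ hσ0)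
  obtain ⟨z, ⟨h3, h4⟩, h5⟩ := ((h1.and h2).and self_mem_nhdsWithin).exists
  have h6 := hxz z h4 h5
  linarith

end Pool.Agent.H86.LS
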