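import Pool.Agent.H86.LS.Away
import Pool.Agent.H86.LS.NoD
import Pool.Agent.H86.LS.Pole
import Pool.Agent.H17EF.Four

/-!
# LS Bridge: from the projective space to the cone
-/

set_option autoImplicit false

open Topology Filter MvPolynomial Metric

noncomputable section

namespace Pool.Agent.H86.LS

open Pool.Agent.H17 (PN VanishesAt HolomorphicInto ZariskiClosedIn)
open Pool.Agent.H62.FC (Homog)
open Pool.Agent.H62.EF (Lat Sec TorusMap)
open Pool.Agent.H62.EL (BadSet)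
open Pool.Agent.H17BP (Surface)
open Pool.Agent.H13.SM (conTan cone)
open Pool.Agent.H36.BP (EN isCone_transport)
open Pool.Agent.H17EF (projVar IsHolomorphicMap coneE uE sections exists_sec mk_mem_projVar mem_coneE uE_eq sub_mem_iff torusMap
  holomorphicInto_of_lift eval_smul_form)

variable {N s : ℕ}

theorem coset_dist {Λ : AddSubgroup ℂ} (hΛ : Lat Λ) (c : ℂ) : ∃ ε : ℝ, 0 < ε ∧ ∀ l ∈ Λ, c + l ≠ 0 → ε ≤ ‖c + l‖ := by
  obtain ⟨δ, hδ, hd⟩ := hΛ.discrete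
  by_cases h : ∃ l₀ ∈ Λ, c + l₀ ≠ 0 ∧ ‖c + l₀‖ < δ / 2
  · obtain ⟨l₀, hl₀, h0, h1⟩ := h
    refine ⟨‖c + l₀‖, norm_pos_iff.2 h0, fun l hl hne => ?_⟩
    by_contra hcon
    push Not at hcon
    have h2 : l - l₀ = 0 := by
      refine hd _ (Λ.sub_mem hl hl₀) ?_
      have h3 : l - l₀ = (c + l) - (c + l₀) := by ring
      rw [h3]
      have h4 := norm_sub_le (c + l) (c + l₀)
      linarith
    rw [sub_eq_zero.1 h2] at hcon
    exact lt_irrefl _ hcon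
  · push Not at h
    exact ⟨δ / 2, half_pos hδ, fun l hl hne => h l hl hne⟩

theorem badSet_of_finite {Λ : AddSubgroup ℂ} (hΛ : Lat Λ) {B : Set (ℂ ⧸ Λ)} (hB : B.Finite) :
    ∃ δ : ℝ, BadSet {b : ℂ | (b : ℂ ⧸ Λ) ∈ B} Λ δ := by
  have h1 : ∀ᶠ ε in 𝓝[>] (0 : ℝ), ∀ p ∈ B ×ˢ B, ∀ b b' : ℂ, (b : ℂ ⧸ Λ) = p.1 → (b' : ℂ ⧸ Λ) = p.2 → b ≠ b' → 8 * ε ≤ ‖b - b'‖ := by
    refine (Filter.eventually_all_finite (hB.prod hB)).2 ?_
    rintro ⟨β, γ⟩ _
    obtain ⟨b₀, rfl⟩ := QuotientAddGroup.mk_surjective β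
    obtain ⟨c₀, rfl⟩ := QuotientAddGroup.mk_surjective γ
    obtain ⟨ε, hε, h⟩ := coset_dist hΛ (b₀ - c₀)
    have h2 : ∀ᶠ t in 𝓝[>] (0 : ℝ), t < ε / 8 := nhdsWithin_le_nhds (gt_mem_nhds (by positivity))
    filter_upwards [h2] with t ht b b' hb hb' hne
    have h3 : b - b₀ ∈ Λ := sub_mem_iff.2 hb
    have h4 : b' - c₀ ∈ Λ := sub_mem_iff.2 hb'
    have h5 : (b₀ - c₀) + ((b - b₀) - (b' - c₀)) = b - b' := by ring
    have h6 := h _ (Λ.sub_mem h3 h4) (by rw [h5]; exact sub_ne_zero.2 hne)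
    rw [h5] at h6
    linarith
  obtain ⟨δ, hδ1, hδ⟩ := (h1.and self_mem_nhdsWithin).exists
  refine ⟨δ, hδ, fun b hb l hl => ?_, fun b hb b' hb' hne => hδ1 (_, _) ⟨hb, hb'⟩ b b' rfl rfl hne⟩
  have h2 : ((b + l : ℂ) : ℂ ⧸ Λ) = (b : ℂ ⧸ Λ) := by
    rw [← sub_mem_iff, add_sub_cancel_left]
    exact hl
  show ((b + l : ℂ) : ℂ ⧸ Λ) ∈ B
  rw [h2]
  exact hb

/-- the forms as functions on the Euclidean space -/
def formE (H : Fin s → MvPolynomial (Fin (N + 1)) ℂ) (i : Fin s) (y : EN N) : ℂ := eval ((Pool.Agent.H17EF.LE N).symm y) (H i)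

theorem formE_dif (H : Fin s → MvPolynomial (Fin (N + 1)) ℂ) (i : Fin s) : Differentiable ℂ (formE H i) := by
  intro y
  have h1 := Pool.Agent.H36.BPL.analyticAt_form (H i) ((Pool.Agent.H17EF.LE N).symm y)
  exact (AnalyticAt.comp (g := fun x : Fin (N + 1) → ℂ => eval x (H i)) (f := fun y : EN N => (Pool.Agent.H17EF.LE N).symm y) h1
    (((Pool.Agent.H17EF.LE N).symm : EN N →L[ℂ] (Fin (N + 1) → ℂ)).analyticAt y)).differentiableAt

theorem formE_hom {H : Fin s → MvPolynomial (Fin (N + 1)) ℂ} {d : Fin s → ℕ} (hH : ∀ i, (H i).IsHomogeneous (d i)) (i : Fin s) (c : ℂ)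
    (y : EN N) : formE H i (c • y) = c ^ d i * formE H i y := by
  unfold formE
  rw [map_smul, eval_smul_form (hH i)]

theorem vanishesAt_mk {n : ℕ} {Q : MvPolynomial (Fin (N + 1)) ℂ} (hQ : Q.IsHomogeneous n) {x : Fin (N + 1) → ℂ} (hx : x ≠ 0) :
    VanishesAt Q (Projectivization.mk ℂ x hx) ↔ eval x Q = 0 := by
  obtain ⟨a, ha, hrep⟩ := Pool.Agent.H36.BP.rep_mk hx
  unfold VanishesAt
  rw [hrep, eval_smul_form hQ]
  constructor
  · exact fun h => (mul_eq_zero.1 h).resolve_left (pow_ne_zero _ ha)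
  · intro h
    rw [h, mul_zero]

/-- Every non-constant entire curve in a fibre of `u` which for each `i` lies in the hypersurface `H i = 0` or does not meet it lies over `B`,
and in `Z` if it does not meet the hypersurfaces. -/
def FibreCondition (X : Set (PN N)) (Λ : AddSubgroup ℂ) (u : PN N → ℂ ⧸ Λ) (H : Fin s → MvPolynomial (Fin (N + 1)) ℂ) (B : Set (ℂ ⧸ Λ))
    (Z : Set (PN N)) : Prop :=
  ∀ f : ℂ → PN N, HolomorphicInto f Set.univ → (∀ z, f z ∈ X) → (∀ z w, u (f z) = u (f w)) → (∃ z w, f z ≠ f w) →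
    (∀ i, (∀ z, VanishesAt (H i) (f z)) ∨ ∀ z, ¬ VanishesAt (H i) (f z)) →
    u (f 0) ∈ B ∧ ((∀ i z, ¬ VanishesAt (H i) (f z)) → ∀ z, f z ∈ Z)

/-- The function `ψ` on the subset `X` of `ℙ^N` is holomorphic near the point `y`. -/
def HolomorphicAt (X : Set (PN N)) (ψ : PN N → ℂ) (y : PN N) : Prop :=
  ∀ (x : Fin (N + 1) → ℂ) (hx : x ≠ 0), Projectivization.mk ℂ x hx = y → ∃ v : (Fin (N + 1) → ℂ) → ℂ, AnalyticAt ℂ v x ∧
    ∀ᶠ w in 𝓝 x, ∀ hw : w ≠ 0, Projectivization.mk ℂ w hw ∈ X → ψ (Projectivization.mk ℂ w hw) = v w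

/-- There are a disc, a part `D` of the union of the hypersurfaces `H i = 0` and a holomorphic function `ψ` on the part of `X` over the disc, outside of `D`,
such that `ψ (e z)` tends to infinity if `z` tends to the centre of the disc. -/
def HasPole (X : Set (PN N)) (Λ : AddSubgroup ℂ) (u : PN N → ℂ ⧸ Λ) (H : Fin s → MvPolynomial (Fin (N + 1)) ℂ) (B : Set (ℂ ⧸ Λ))
    (e : ℂ → PN N) : Prop :=
  ∃ (z₀ : ℂ) (ρ : ℝ) (D : Set (PN N)) (ψ : PN N → ℂ), 0 < ρ ∧ (∀ y ∈ X, y ∈ D → ∃ i, VanishesAt (H i) y) ∧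
    (∀ y ∈ X, y ∉ D → (∃ z ∈ Metric.ball z₀ ρ, u y = (z : ℂ ⧸ Λ)) → HolomorphicAt X ψ y) ∧
    (∀ z ∈ Metric.ball z₀ ρ, z ≠ z₀ → (z : ℂ ⧸ Λ) ∉ B → e z ∉ D) ∧ Tendsto (fun z => ‖ψ (e z)‖) (𝓝[≠] z₀) atTop

/-- `e` is a holomorphic section of `u` over the complement of `B` which lies in all the hypersurfaces `H i = 0`. -/
structure IsSectionIn (X : Set (PN N)) (Λ : AddSubgroup ℂ) (u : PN N → ℂ ⧸ Λ) (H : Fin s → MvPolynomial (Fin (N + 1)) ℂ) (B : Set (ℂ ⧸ Λ))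
    (e : ℂ → PN N) : Prop where
  hol : HolomorphicInto e {z : ℂ | (z : ℂ ⧸ Λ) ∉ B}
  mem : ∀ z : ℂ, (z : ℂ ⧸ Λ) ∉ B → e z ∈ X
  sec : ∀ z : ℂ, (z : ℂ ⧸ Λ) ∉ B → u (e z) = (z : ℂ ⧸ Λ)
  inH : ∀ i, ∀ z : ℂ, (z : ℂ ⧸ Λ) ∉ B → VanishesAt (H i) (e z)

variable {P : Ideal (MvPolynomial (Fin (N + 1)) ℂ)} [P.IsPrime]

theorem noLim_of_pole (hP : Homog P) {Λ : AddSubgroup ℂ} {u : PN N → ℂ ⧸ Λ}
    {H : Fin s → MvPolynomial (Fin (N + 1)) ℂ} {d : Fin s → ℕ}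
    (hH : ∀ i, (H i).IsHomogeneous (d i)) {B : Set (ℂ ⧸ Λ)} {δ : ℝ}
    (E : LData (coneE P) Λ (uE Λ u) {b : ℂ | (b : ℂ ⧸ Λ) ∈ B} δ (formE H) d)
    (hpole : ∀ e : ℂ → PN N, IsSectionIn (projVar P) Λ u H B e → HasPole (projVar P) Λ u H B e) :
    NoLim (coneE P) Λ (uE Λ u) {b : ℂ | (b : ℂ ⧸ Λ) ∈ B} (formE H) := by
  classical
  intro 𝒰 F hF x hx h0
  have hδ := E.bad.pos
  obtain ⟨z₁, hz₁⟩ := E.bad.nonempty
  have hz₁B : (z₁ : ℂ ⧸ Λ) ∉ B := Pool.Agent.H62.EL.gd_notMem (B := {b : ℂ | (b : ℂ ⧸ Λ) ∈ B}) (by linarith) hz₁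
  have hxX : ∀ z : ℂ, (z : ℂ ⧸ Λ) ∉ B → x z ∈ coneE P ∧ uE Λ u (x z) - z ∈ Λ := by
    intro z hz
    obtain ⟨r, φ, Ψ, h⟩ := hx z hz
    obtain ⟨h1, h2, c, hc, h3⟩ := h.mem z (mem_ball_self h.pos)
    have h4 : x z = c⁻¹ • Ψ z := by rw [h3, smul_smul, inv_mul_cancel₀ hc, one_smul]
    have h5 : x z ∈ coneE P := by
      rw [h4]
      exact E.cone.smul_mem _ h1 _ (inv_ne_zero hc)
    refine ⟨h5, ?_⟩
    have h6 := E.tor.smul (x z) h5 c hc
    rw [← h3] at h6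
    have h7 := Λ.sub_mem h2 h6
    convert h7 using 1
    ring
  have hx0 : ∀ z : ℂ, (z : ℂ ⧸ Λ) ∉ B → (Pool.Agent.H17EF.LE N).symm (x z) ≠ 0 := fun z hz => ((mem_coneE hP).1 (hxX z hz).1).1
  set x' : ℂ → EN N := fun z => if (z : ℂ ⧸ Λ) ∈ B then x z₁ else x z with hx'
  have hx'n : ∀ z : ℂ, (z : ℂ ⧸ Λ) ∉ B → x' z = x z := fun z hz => if_neg hz
  have hx'0 : ∀ z, (Pool.Agent.H17EF.LE N).symm (x' z) ≠ 0 := by
    intro z
    by_cases hz : (z : ℂ ⧸ Λ) ∈ B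
    · rw [hx']
      simp only [if_pos hz]
      exact hx0 z₁ hz₁B
    · rw [hx'n z hz]
      exact hx0 z hz
  set e : ℂ → PN N := fun z => Projectivization.mk ℂ ((Pool.Agent.H17EF.LE N).symm (x' z)) (hx'0 z) with he
  have hmk : ∀ (z : ℂ) (y : EN N) (c : ℂ) (hy : (Pool.Agent.H17EF.LE N).symm y ≠ 0), (z : ℂ ⧸ Λ) ∉ B → y = c • x z →
      e z = Projectivization.mk ℂ ((Pool.Agent.H17EF.LE N).symm y) hy := by
    intro z y c hy hz hyx
    have hc : c ≠ 0 := by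
      rintro rfl
      rw [zero_smul] at hyx
      exact hy (by rw [hyx, map_zero])
    simp only [he]
    rw [Projectivization.mk_eq_mk_iff']
    refine ⟨c⁻¹, ?_⟩
    rw [hx'n z hz, hyx, map_smul, smul_smul, inv_mul_cancel₀ hc, one_smul]
  have hez : ∀ (z : ℂ) (hz : (z : ℂ ⧸ Λ) ∉ B), e z = Projectivization.mk ℂ ((Pool.Agent.H17EF.LE N).symm (x z)) (hx0 z hz) :=
    fun z hz => hmk z (x z) 1 (hx0 z hz) hz (one_smul _ _).symm
  have hnhds : ∀ z : ℂ, (z : ℂ ⧸ Λ) ∉ B → ∀ᶠ w : ℂ in 𝓝 z, (w : ℂ ⧸ Λ) ∉ B := by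
    intro z hz
    obtain ⟨δ', hδ', hg⟩ := E.bad.exists_gd (z := z) hz
    filter_upwards [isOpen_ball.mem_nhds (mem_ball_self hδ' : z ∈ ball z δ')] with w hw hwB
    have h1 := hg w hwB
    rw [mem_ball, dist_comm, dist_eq_norm] at hw
    linarith
  have hsec : IsSectionIn (projVar P) Λ u H B e := by
    refine ⟨?_, ?_, ?_, ?_⟩
    · intro z hz
      have hz' : (z : ℂ ⧸ Λ) ∉ B := hz
      obtain ⟨r, φ, Ψ, h⟩ := hx z hz'
      have hself : z ∈ ball z r := mem_ball_self h.pos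
      refine ⟨fun w => (Pool.Agent.H17EF.LE N).symm (Ψ w), (((Pool.Agent.H17EF.LE N).symm : EN N →L[ℂ] (Fin (N + 1) → ℂ)).analyticAt _).comp
        (h.dif.analyticAt (isOpen_ball.mem_nhds hself)), ?_⟩
      filter_upwards [isOpen_ball.mem_nhds hself, hnhds z hz'] with w hw hwB
      obtain ⟨h1, h2, c, hc, h3⟩ := h.mem w hw
      have h4 : (Pool.Agent.H17EF.LE N).symm (Ψ w) ≠ 0 := ((mem_coneE hP).1 h1).1
      exact ⟨h4, hmk w (Ψ w) c h4 hwB h3⟩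
    · intro z hz
      rw [hez z hz]
      exact ((mem_coneE hP).1 (hxX z hz).1).2
    · intro z hz
      rw [hez z hz, ← uE_eq Λ u (hx0 z hz), ← sub_mem_iff]
      exact (hxX z hz).2
    · intro i z hz
      rw [hez z hz, vanishesAt_mk (hH i)]
      exact h0 i z hz
  obtain ⟨z₀, ρ, D, ψ, hρ, hD, hψ, hout, hlim⟩ := hpole e hsec
  set ψE : EN N → ℂ := fun y => if h : (Pool.Agent.H17EF.LE N).symm y ≠ 0 then ψ (Projectivization.mk ℂ ((Pool.Agent.H17EF.LE N).symm y) h) else 0 with hψE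
  have hψE' : ∀ y (h : (Pool.Agent.H17EF.LE N).symm y ≠ 0), ψE y = ψ (Projectivization.mk ℂ ((Pool.Agent.H17EF.LE N).symm y) h) := fun y h => dif_pos h
  set DE : Set (EN N) := {y | ∃ h : (Pool.Agent.H17EF.LE N).symm y ≠ 0, Projectivization.mk ℂ ((Pool.Agent.H17EF.LE N).symm y) h ∈ D} with hDE
  have hmks : ∀ (y : EN N) (c : ℂ) (h : (Pool.Agent.H17EF.LE N).symm y ≠ 0) (h' : (Pool.Agent.H17EF.LE N).symm (c • y) ≠ 0),
      Projectivization.mk ℂ ((Pool.Agent.H17EF.LE N).symm (c • y)) h' = Projectivization.mk ℂ ((Pool.Agent.H17EF.LE N).symm y) h := by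
    intro y c h h'
    rw [Projectivization.mk_eq_mk_iff']
    exact ⟨c, (map_smul _ _ _).symm⟩
  have hpt : PoleAt (coneE P) Λ (uE Λ u) {b : ℂ | (b : ℂ ⧸ Λ) ∈ B} (formE H) x z₀ ρ ψE DE := by
    refine ⟨hρ, ?_, ?_, ?_, ?_, ?_⟩
    · rintro y hy ⟨h, hyD⟩
      obtain ⟨i, hi⟩ := hD _ ((mem_coneE hP).1 hy).2 hyD
      rw [vanishesAt_mk (hH i)] at hi
      exact ⟨i, hi⟩
    · intro y hy c hc
      have h1 : (Pool.Agent.H17EF.LE N).symm y ≠ 0 := ((mem_coneE hP).1 hy).1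
      have h2 : (Pool.Agent.H17EF.LE N).symm (c • y) ≠ 0 := by
        rw [map_smul]
        exact smul_ne_zero hc h1
      refine ⟨?_, ?_⟩
      · rw [hψE' _ h1, hψE' _ h2, hmks y c h1 h2]
      · rintro ⟨h3, h4⟩
        rw [hmks y c h1 h3] at h4
        exact ⟨h1, h4⟩
    · rintro y hy hyD ⟨z, hz, hyz⟩
      obtain ⟨h1, h2⟩ := (mem_coneE hP).1 hy
      have h3 : u (Projectivization.mk ℂ ((Pool.Agent.H17EF.LE N).symm y) h1) = (z : ℂ ⧸ Λ) := by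
        rw [← uE_eq Λ u h1, ← sub_mem_iff]
        exact hyz
      obtain ⟨v, hv, hv'⟩ := hψ _ h2 (fun h => hyD ⟨h1, h⟩) ⟨z, hz, h3⟩ _ h1 rfl
      refine ⟨fun y => v ((Pool.Agent.H17EF.LE N).symm y), ?_, ?_⟩
      · exact AnalyticAt.comp (g := v) (f := fun y : EN N => (Pool.Agent.H17EF.LE N).symm y) hv
          (((Pool.Agent.H17EF.LE N).symm : EN N →L[ℂ] (Fin (N + 1) → ℂ)).analyticAt y)
      · have h4 : Tendsto (fun y : EN N => (Pool.Agent.H17EF.LE N).symm y) (𝓝 y) (𝓝 ((Pool.Agent.H17EF.LE N).symm y)) :=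
          (Pool.Agent.H17EF.LE N).symm.continuous.tendsto y
        filter_upwards [h4.eventually hv'] with w hw hwX
        obtain ⟨h5, h6⟩ := (mem_coneE hP).1 hwX
        rw [hψE' w h5]
        exact hw h5 h6
    · rintro z hz hne hzB ⟨h1, h2⟩
      apply hout z hz hne hzB
      rw [hez z hzB]
      exact h2
    · refine hlim.congr' ?_
      obtain ⟨σ, hσ, hσB⟩ := isolated E z₀
      filter_upwards [nhdsWithin_le_nhds (ball_mem_nhds z₀ hσ), self_mem_nhdsWithin] with z hz hne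
      have hzB : (z : ℂ ⧸ Λ) ∉ B := by
        intro hzB
        have h1 := hσB z hzB hne
        rw [mem_ball, dist_comm, dist_eq_norm] at hz
        linarith
      rw [hez z hzB, hψE' _ (hx0 z hzB)]
  exact pole_false E hF hx hpt

/-- **There are no sections in the complement of the hypersurfaces.** -/
theorem no_section (hP : Homog P) (hS : Surface (cone P)) {Λ : AddSubgroup ℂ} (hΛ : Lat Λ) {u : PN N → ℂ ⧸ Λ}
    (hu : IsHolomorphicMap (projVar P) Λ u) {H : Fin s → MvPolynomial (Fin (N + 1)) ℂ} {d : Fin s → ℕ}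
    (hH : ∀ i, (H i).IsHomogeneous (d i)) (hd : ∀ i, 0 < d i) {B : Set (ℂ ⧸ Λ)} (hB : B.Finite)
    (hD : (∀ f : ℂ → PN N, HolomorphicInto f Set.univ → (∀ z, f z ∈ projVar P) → (∀ i z, VanishesAt (H i) (f z)) → ∀ z w, f z = f w) ∨
      ∀ e : ℂ → PN N, IsSectionIn (projVar P) Λ u H B e → HasPole (projVar P) Λ u H B e)
    {Z : Set (PN N)} (hfib : FibreCondition (projVar P) Λ u H B Z) {f : ℂ → PN N}
    (hf : f ∈ sections (projVar P) Λ u) : ¬ ∀ i z, ¬ VanishesAt (H i) (f z) := by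
  intro hfU
  obtain ⟨δ, hbad⟩ := badSet_of_finite hΛ hB
  -- lifts and maps
  have hmk : ∀ (F : ℂ → EN N), Differentiable ℂ F → (∀ z, F z ∈ coneE P) → ∃ g : ℂ → PN N, HolomorphicInto g Set.univ ∧
      ∀ z, ∃ h : (Pool.Agent.H17EF.LE N).symm (F z) ≠ 0, g z = Projectivization.mk ℂ ((Pool.Agent.H17EF.LE N).symm (F z)) h := by
    intro F hF hFX
    have h0 : ∀ z, (Pool.Agent.H17EF.LE N).symm (F z) ≠ 0 := fun z => ((mem_coneE hP).1 (hFX z)).1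
    exact ⟨_, holomorphicInto_of_lift hF h0, fun z => ⟨h0 z, rfl⟩⟩
  have hprop : ∀ {x y : EN N} (hx : (Pool.Agent.H17EF.LE N).symm x ≠ 0) (hy : (Pool.Agent.H17EF.LE N).symm y ≠ 0),
      Projectivization.mk ℂ ((Pool.Agent.H17EF.LE N).symm x) hx = Projectivization.mk ℂ ((Pool.Agent.H17EF.LE N).symm y) hy ↔
        ∃ c : ℂ, x = c • y := by
    intro x y hx hy
    rw [Projectivization.mk_eq_mk_iff']
    constructor
    · rintro ⟨c, hc⟩
      rw [← map_smul] at hc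
      exact ⟨c, ((Pool.Agent.H17EF.LE N).symm.injective hc).symm⟩
    · rintro ⟨c, hc⟩
      exact ⟨c, by rw [hc, map_smul]⟩
  have E : LData (coneE P) Λ (uE Λ u) {b : ℂ | (b : ℂ ⧸ Λ) ∈ B} δ (formE H) d := by
    refine ⟨isCone_transport (Pool.Agent.H17EF.LE N) hS, torusMap hP hu, hΛ, hbad, formE_dif H, formE_hom hH, hd, ?_⟩
    intro F hF hFX hdi hver hnc
    obtain ⟨g, hg, hgF⟩ := hmk F hF hFX
    have hgX : ∀ z, g z ∈ projVar P := by
      intro z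
      obtain ⟨h, h'⟩ := hgF z
      rw [h']
      exact (mk_mem_projVar hP h).2 (hFX z)
    have hval : ∀ z, ((uE Λ u (F z) : ℂ) : ℂ ⧸ Λ) = u (g z) := by
      intro z
      obtain ⟨h, h'⟩ := hgF z
      rw [uE_eq Λ u h, ← h']
    have hgu : ∀ z w, u (g z) = u (g w) := by
      intro z w
      rw [← hval, ← hval, ← sub_mem_iff]
      exact hver z w
    have hgn : ∃ z w, g z ≠ g w := by
      obtain ⟨z, w, hzw⟩ := hnc
      refine ⟨z, w, fun h => ?_⟩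
      obtain ⟨h2, h2'⟩ := hgF z
      obtain ⟨h3, h3'⟩ := hgF w
      rw [h2', h3', hprop h2 h3] at h
      obtain ⟨c, hc⟩ := h
      exact hzw c hc
    have hgv : ∀ i z, VanishesAt (H i) (g z) ↔ formE H i (F z) = 0 := by
      intro i z
      obtain ⟨h, h'⟩ := hgF z
      rw [h', vanishesAt_mk (hH i)]
      rfl
    have hmem : u (g 0) ∈ B := by
      refine (hfib g hg hgX hgu hgn fun i => ?_).1
      rcases hdi i with h0 | h0
      · exact Or.inr fun z h => h0 z ((hgv i z).1 h)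
      · exact Or.inl fun z => (hgv i z).2 (h0 z)
    rw [← hval] at hmem
    exact ⟨uE Λ u (F 0), hmem, by rw [sub_self]; exact Λ.zero_mem⟩
  have hno : NoLim (coneE P) Λ (uE Λ u) {b : ℂ | (b : ℂ ⧸ Λ) ∈ B} (formE H) := by
    rcases hD with hD | hD
    · refine noLim_of_noCurves E fun F hF hFX hF0 z w => ?_
      obtain ⟨g, hg, hgF⟩ := hmk F hF hFX
      have h1 := hD g hg (fun z => by
        obtain ⟨h, h'⟩ := hgF z
        rw [h']
        exact (mk_mem_projVar hP h).2 (hFX z)) (fun i z => by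
        obtain ⟨h, h'⟩ := hgF z
        rw [h', vanishesAt_mk (hH i)]
        exact hF0 i z) z w
      obtain ⟨h2, h2'⟩ := hgF z
      obtain ⟨h3, h3'⟩ := hgF w
      rw [h2', h3'] at h1
      exact (hprop h2 h3).1 h1
    · exact noLim_of_pole hP hH E hD
  obtain ⟨F, hF, hFf⟩ := exists_sec hP hf
  have hFS : F ∈ SG (coneE P) Λ (uE Λ u) (formE H) := by
    refine ⟨hF, fun i z h0 => ?_⟩
    obtain ⟨h, h'⟩ := hFf z
    apply hfU i z
    rw [h', vanishesAt_mk (hH i)]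
    exact h0
  rw [sg_empty E hno] at hFS
  exact hFS

end Pool.Agent.H86.LS
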