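import Pool.Agent.H86.LS.Open

/-!
# LS Class: the base constructor `affine` for the class of quasi-projective surfaces over an elliptic curve
-/

set_option autoImplicit false

open MvPolynomial

noncomputable section

namespace Pool.Agent.H86.LS

open Pool.Agent.H17 (PN VanishesAt ZariskiClosedIn HolomorphicInto puncturedDisc)
open Pool.Agent.H62.FC (Homog)
open Pool.Agent.H62.SA (locVar OnBd)
open Pool.Agent.H17LG.Variety (FunField IsLogGeneralType)
open Pool.Agent.H13.SM (conTan cone)
open Pool.Agent.H17EF (projVar IsHolomorphicMap)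
open Pool.Agent.H7.Bir (GGLOpen)

variable {N s : ℕ}

/-- `u` is a holomorphic map from the closed subvariety `X` of `ℙ^N` given by `P` to the elliptic curve `ℂ / L`, `L = ℤ w 0 + ℤ w 1`, and the `H i` are forms of
positive degree which are not zero on `X`.  Let `D i` be the part of `X` where `H i = 0`.  There are a finite set `B` and a Zariski closed set `Z ≠ X` such that every
non-constant entire curve in a fibre of `u` which for each `i` lies in `D i` or does not meet `D i` lies over `B`, and in `Z` if it does not meet any `D i`;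
and no non-constant entire curve lies in all the `D i`, or every holomorphic section of `u` over the complement of `B` which lies in all the `D i` has a pole. -/
structure IsAffineOver (P : Ideal (MvPolynomial (Fin (N + 1)) ℂ)) (w : Fin 2 → ℂ) (u : PN N → ℂ ⧸ AddSubgroup.closure (Set.range w))
    (H : Fin s → MvPolynomial (Fin (N + 1)) ℂ) : Prop where
  lattice : LinearIndependent ℝ w
  hol : IsHolomorphicMap (projVar P) (AddSubgroup.closure (Set.range w)) u
  form : ∀ i, ∃ d, 0 < d ∧ (H i).IsHomogeneous d
  ne : ∀ i, H i ∉ P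
  curves : ∃ (B : Set (ℂ ⧸ AddSubgroup.closure (Set.range w))) (Z : Set (PN N)), B.Finite ∧ ZariskiClosedIn (projVar P) Z ∧ Z ≠ projVar P ∧
    FibreCondition (projVar P) (AddSubgroup.closure (Set.range w)) u H B Z ∧
    ((∀ f : ℂ → PN N, HolomorphicInto f Set.univ → (∀ z, f z ∈ projVar P) → (∀ i z, VanishesAt (H i) (f z)) → ∀ z w, f z = f w) ∨
      ∀ e : ℂ → PN N, IsSectionIn (projVar P) (AddSubgroup.closure (Set.range w)) u H B e →
        HasPole (projVar P) (AddSubgroup.closure (Set.range w)) u H B e)

/-- the induction step for the constructor `affine` -/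
theorem IsAffineOver.step {P : Ideal (MvPolynomial (Fin (N + 1)) ℂ)} [P.IsPrime] (hP : Homog P)
    (hdim : ∃ z : Fin 2 → FunField P, IsTranscendenceBasis ℂ z)
    (hsm : ∀ y : Fin (N + 1) → ℂ, y ≠ 0 → (∀ Q ∈ P, eval y Q = 0) → Module.finrank ℂ (conTan P y) ≤ 3)
    {w : Fin 2 → ℂ} {u : PN N → ℂ ⧸ AddSubgroup.closure (Set.range w)} {H : Fin s → MvPolynomial (Fin (N + 1)) ℂ} (h : IsAffineOver P w u H)
    (hgt : IsLogGeneralType (K := FunField P) (k := 2) (OnBd P (fun _ : Fin 1 => ∏ i, H i))) :
    ∃ Ξ : Set (PN N), GGLOpen P (fun _ : Fin 1 => ∏ i, H i) Ξ := by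
  obtain ⟨z, hz⟩ := hdim
  choose d hd hH using h.form
  obtain ⟨B, Z, hB, hZ, hZX, hfib, hD⟩ := h.curves
  exact ⟨_, gglOpen hP hz hsm (Pool.Agent.H17EF.lat_of_basis h.lattice) h.hol hH hd h.ne hgt hB hD hZ hZX hfib⟩

end Pool.Agent.H86.LS
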