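import Pool.Agent.H62.EL.Zl

/-!
# LS Defs: complements of curves in a surface over an elliptic curve

`X` is the cone (without `0`) over a projective variety, `u` a holomorphic map to `ℂ / Λ`, the `G i` are forms of positive degree with the zero sets `D i`.
The entire curves in the fibres of `u` which for each `i` avoid `D i` or lie in `D i` lie over the bad set `B` (`fib`).
-/

set_option autoImplicit false

open Topology Filter Metric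

namespace Pool.Agent.H86.LS

open Pool.Agent.H36.BP (EN fs)
open Pool.Agent.H14.PP (IsCone)
open Pool.Agent.H62.EF (Lat TorusMap Sec)
open Pool.Agent.H62.EL (BadSet Gd)

variable {N s : ℕ}

/-- the geometric data -/
structure LData (X : Set (EN N)) (Λ : AddSubgroup ℂ) (u : EN N → ℂ) (B : Set ℂ) (δ : ℝ) (G : Fin s → EN N → ℂ) (m : Fin s → ℕ) : Prop where
  cone : IsCone X
  tor : TorusMap X Λ u
  lat : Lat Λ
  bad : BadSet B Λ δ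
  dif : ∀ i, Differentiable ℂ (G i)
  hom : ∀ i (c : ℂ) (x : EN N), G i (c • x) = c ^ m i * G i x
  pos : ∀ i, 0 < m i
  fib : ∀ F : ℂ → EN N, Differentiable ℂ F → (∀ z, F z ∈ X) → (∀ i, (∀ z, G i (F z) ≠ 0) ∨ ∀ z, G i (F z) = 0) →
    (∀ z w, u (F z) - u (F w) ∈ Λ) → (∃ z w, ∀ c : ℂ, F z ≠ c • F w) → ∃ b ∈ B, u (F 0) - b ∈ Λ

/-- the sections which avoid the `D i` -/
def SG (X : Set (EN N)) (Λ : AddSubgroup ℂ) (u : EN N → ℂ) (G : Fin s → EN N → ℂ) : Set (ℂ → EN N) :=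
  {F | F ∈ Sec X Λ u ∧ ∀ i z, G i (F z) ≠ 0}

theorem sg_trans {X : Set (EN N)} {Λ : AddSubgroup ℂ} {u : EN N → ℂ} {G : Fin s → EN N → ℂ} {F : ℂ → EN N} (hF : F ∈ SG X Λ u G) {l : ℂ}
    (hl : l ∈ Λ) : (fun z => F (z + l)) ∈ SG X Λ u G :=
  ⟨Pool.Agent.H62.EF.sec_trans hF.1 hl, fun i z => hF.2 i (z + l)⟩

/-- `Ψ` is a local limit of the curves `F n` at `z₀` -/
structure LocLim (X : Set (EN N)) (Λ : AddSubgroup ℂ) (u : EN N → ℂ) (𝒰 : Ultrafilter ℕ) (F : ℕ → ℂ → EN N) (x : ℂ → EN N) (z₀ : ℂ) (r : ℝ)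
    (φ : ℕ → ℂ → EN N) (Ψ : ℂ → EN N) : Prop where
  pos : 0 < r
  app : ∀ᶠ n in (𝒰 : Filter ℕ), DifferentiableOn ℂ (φ n) (ball z₀ r) ∧ ∀ z ∈ ball z₀ r, ∃ c : ℂ, c ≠ 0 ∧ φ n z = c • F n z
  dif : DifferentiableOn ℂ Ψ (ball z₀ r)
  mem : ∀ z ∈ ball z₀ r, Ψ z ∈ X ∧ u (Ψ z) - z ∈ Λ ∧ ∃ c : ℂ, c ≠ 0 ∧ Ψ z = c • x z
  conv : TendstoLocallyUniformlyOn φ Ψ 𝒰 (ball z₀ r)

/-- `x` is the limit of the curves `F n` outside of `B` -/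
def IsLim (X : Set (EN N)) (Λ : AddSubgroup ℂ) (u : EN N → ℂ) (B : Set ℂ) (𝒰 : Ultrafilter ℕ) (F : ℕ → ℂ → EN N) (x : ℂ → EN N) : Prop :=
  ∀ z₀, z₀ ∉ B → ∃ (r : ℝ) (φ : ℕ → ℂ → EN N) (Ψ : ℂ → EN N), LocLim X Λ u 𝒰 F x z₀ r φ Ψ

/-- no limit of the sections which avoid the `D i` lies in all the `D i` -/
def NoLim (X : Set (EN N)) (Λ : AddSubgroup ℂ) (u : EN N → ℂ) (B : Set ℂ) (G : Fin s → EN N → ℂ) : Prop :=
  ∀ (𝒰 : Ultrafilter ℕ) (F : ℕ → ℂ → EN N), (∀ n, F n ∈ SG X Λ u G) → ∀ x : ℂ → EN N, IsLim X Λ u B 𝒰 F x →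
    ¬ ∀ i z, z ∉ B → G i (x z) = 0

end Pool.Agent.H86.LS
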