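import Pool.Agent.H86.LS.Defs
import Pool.Agent.H62.Log.Hurwitz

/-!
# LS Zl: the sections which avoid the curves are uniformly Lipschitz away from the bad fibres

As `Pool.Agent.H62.EL.Zl`: Zalcman's rescaling; the limit is an entire curve in a fibre, and by Hurwitz' theorem
it avoids `D_i` or it lies in `D_i`.
-/

set_option autoImplicit false

open Topology Filter Metric

namespace Pool.Agent.H86.LS

open Pool.Agent.H36.BP (EN fs wd)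
open Pool.Agent.H14.PP (IsCone)
open Pool.Agent.H62.EF (Lat MN pr TorusMap Sec)
open Pool.Agent.H62.EL (BadSet Gd isClosed_gd gd_notMem gd_mono)

variable {N s : ℕ} {X : Set (EN N)} {Λ : AddSubgroup ℂ} {u : EN N → ℂ}

/-- Hurwitz' theorem for a limit of holomorphic curves and a form -/
theorem hurwitz_local {V : Type} [NormedAddCommGroup V] [NormedSpace ℂ V] {g : V → ℂ} (hg : Differentiable ℂ g) (𝒰 : Ultrafilter ℕ)
    {φ : ℕ → ℂ → V} {ψ : ℂ → V} {z₀ : ℂ} {r : ℝ} (h1 : ∀ᶠ n in (𝒰 : Filter ℕ), DifferentiableOn ℂ (φ n) (ball z₀ r))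
    (h2 : ∀ᶠ n in (𝒰 : Filter ℕ), ∀ z ∈ ball z₀ r, g (φ n z) ≠ 0) (hψ : DifferentiableOn ℂ ψ (ball z₀ r))
    (hc : TendstoLocallyUniformlyOn φ ψ 𝒰 (ball z₀ r)) :
    (∀ z ∈ ball z₀ r, g (ψ z) = 0) ∨ ∀ z ∈ ball z₀ r, g (ψ z) ≠ 0 := by
  refine Pool.Agent.H62.Log.hurwitz 𝒰 (φ := fun n z => g (φ n z)) (h1.mono fun n hn => hg.comp_differentiableOn hn) h2
    (hg.comp_differentiableOn hψ) ?_
  intro z z₁ hz₁ hz
  refine (hg.continuous.tendsto _).comp ?_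
  exact hc.tendsto_comp (hψ.continuousOn z₁ hz₁) hz₁ (tendsto_nhdsWithin_iff.2 ⟨hz, hz.eventually (isOpen_ball.mem_nhds hz₁)⟩)

/-- a holomorphic curve on a connected set which locally avoids a hypersurface or lies in it -/
theorem dichotomy {U : Set ℂ} (hU : IsPreconnected U) {p : ℂ → Prop}
    (h : ∀ z₀ ∈ U, ∃ r : ℝ, 0 < r ∧ ((∀ z ∈ ball z₀ r, p z) ∨ ∀ z ∈ ball z₀ r, ¬ p z)) : (∀ z ∈ U, p z) ∨ ∀ z ∈ U, ¬ p z := by
  by_cases hne : ∃ z₀ ∈ U, p z₀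
  · left
    obtain ⟨z₀, hz₀, hp₀⟩ := hne
    set V : Set ℂ := {z | ∀ᶠ w in 𝓝 z, p w} with hV
    have hVo : IsOpen V := by
      rw [isOpen_iff_mem_nhds]
      intro z hz
      exact hz.eventually_nhds
    have hpV : ∀ z ∈ U, p z → z ∈ V := by
      intro z hz hp
      obtain ⟨r, hr, h1 | h1⟩ := h z hz
      · exact Filter.eventually_of_mem (isOpen_ball.mem_nhds (mem_ball_self hr)) h1
      · exact absurd hp (h1 z (mem_ball_self hr))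
    have hsub : U ⊆ V := by
      refine hU.subset_of_closure_inter_subset hVo ⟨z₀, hz₀, hpV z₀ hz₀ hp₀⟩ ?_
      rintro z ⟨hzc, hz⟩
      obtain ⟨r, hr, h1 | h1⟩ := h z hz
      · exact hpV z hz (h1 z (mem_ball_self hr))
      · obtain ⟨w, hw1, hw2⟩ := _root_.mem_closure_iff.1 hzc (ball z r) isOpen_ball (mem_ball_self hr)
        exact absurd hw2.self_of_nhds (h1 w hw1)
    exact fun z hz => (hsub hz : z ∈ V).self_of_nhds
  · right
    push Not at hne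
    exact hne

private theorem rescale_fs_half {F : ℂ → EN N} (hF : Differentiable ℂ F) (h0 : ∀ z, F z ≠ 0) (n : ℕ)
    (hbig : 4 * ((n : ℝ) + 1) < fs (F 0) (deriv F 0)) :
    ∃ (z₀ : ℂ) (a : ℝ), ‖z₀‖ ≤ 1 / 2 ∧ 4 * ((n : ℝ) + 1) < a ∧ fs (F z₀) (deriv (fun ζ => F (z₀ + ((a⁻¹ : ℝ) : ℂ) * ζ)) 0) = 1 ∧
      ∀ ζ ∈ ball (0 : ℂ) (n + 1), fs (F (z₀ + ((a⁻¹ : ℝ) : ℂ) * ζ)) (deriv (fun ζ => F (z₀ + ((a⁻¹ : ℝ) : ℂ) * ζ)) ζ) ≤ 2 := by
  have hn : (0 : ℝ) ≤ n := Nat.cast_nonneg n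
  have hFc : Continuous F := hF.continuous
  have hF'c : Continuous (deriv F) := (hF.contDiff (n := 1)).continuous_deriv le_rfl
  have hgc : Continuous fun z : ℂ => fs (F z) (deriv F z) := by
    unfold fs
    refine (Pool.Agent.H36.BP.wd_cont.comp (hFc.prodMk hF'c)).div (hFc.norm.pow 2) ?_
    intro z
    exact pow_ne_zero 2 (norm_ne_zero_iff.mpr (h0 z))
  set u : ℂ → ℝ := fun z => fs (F z) (deriv F z) * (1 / 2 - ‖z‖) with hu
  have huc : Continuous u := hgc.mul (continuous_const.sub continuous_norm)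
  obtain ⟨z₀, hz₀, hmax⟩ := (isCompact_closedBall (0 : ℂ) (1 / 2)).exists_isMaxOn ⟨0, by simp⟩ huc.continuousOn
  have hz₀n : ‖z₀‖ ≤ 1 / 2 := by simpa using hz₀
  have hu0z : u 0 ≤ u z₀ := hmax (by simp : (0 : ℂ) ∈ closedBall (0 : ℂ) (1 / 2))
  have hu0 : u 0 = fs (F 0) (deriv F 0) / 2 := by simp only [hu, norm_zero]; ring
  have hm : 2 * ((n : ℝ) + 1) < u z₀ := by rw [hu0] at hu0z; linarith
  set d : ℝ := 1 / 2 - ‖z₀‖ with hd
  have hd0 : 0 ≤ d := by rw [hd]; linarith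
  set a : ℝ := fs (F z₀) (deriv F z₀) with ha
  have ha0 : 0 ≤ a := Pool.Agent.H36.BP.fs_nonneg _ _
  have huz : u z₀ = a * d := rfl
  have hpos : 0 < a * d := by rw [← huz]; linarith
  have hapos : 0 < a := by
    rcases ha0.lt_or_eq with h | h
    · exact h
    · rw [← h] at hpos; simp at hpos
  have hdpos : 0 < d := by
    rcases hd0.lt_or_eq with h | h
    · exact h
    · rw [← h] at hpos; simp at hpos
  have hd2 : d ≤ 1 / 2 := by rw [hd]; linarith [norm_nonneg z₀]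
  have haL : 4 * ((n : ℝ) + 1) < a := by
    have h1 : a * d ≤ a * (1 / 2) := mul_le_mul_of_nonneg_left hd2 ha0
    rw [huz] at hm
    linarith
  set φ : ℂ → ℂ := fun ζ => z₀ + ((a⁻¹ : ℝ) : ℂ) * ζ with hφ
  have hφd : ∀ ζ, HasDerivAt φ ((a⁻¹ : ℝ) : ℂ) ζ := by
    intro ζ
    have := ((hasDerivAt_id ζ).const_mul ((a⁻¹ : ℝ) : ℂ)).const_add z₀
    simpa [hφ] using this
  have hkey : ∀ ζ ∈ ball (0 : ℂ) (n + 1), ‖φ ζ‖ ≤ 1 / 2 - d / 2 := by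
    intro ζ hζ
    have hζn : ‖ζ‖ < n + 1 := by simpa using hζ
    have h1 : ‖φ ζ‖ ≤ ‖z₀‖ + a⁻¹ * ‖ζ‖ := by
      calc ‖φ ζ‖ ≤ ‖z₀‖ + ‖((a⁻¹ : ℝ) : ℂ) * ζ‖ := norm_add_le _ _
        _ = ‖z₀‖ + a⁻¹ * ‖ζ‖ := by
          rw [norm_mul, Complex.norm_real, Real.norm_of_nonneg (by positivity)]
    have h2 : a⁻¹ * ‖ζ‖ ≤ d / 2 := by
      rw [inv_mul_le_iff₀ hapos]
      rw [huz] at hm
      linarith
    have h3 : ‖z₀‖ = 1 / 2 - d := by rw [hd]; ring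
    linarith
  have hball : ∀ ζ ∈ ball (0 : ℂ) (n + 1), φ ζ ∈ closedBall (0 : ℂ) (1 / 2) := by
    intro ζ hζ
    have := hkey ζ hζ
    rw [mem_closedBall_zero_iff]
    linarith
  have hder : ∀ ζ, deriv (fun ζ => F (φ ζ)) ζ = ((a⁻¹ : ℝ) : ℂ) • deriv F (φ ζ) := by
    intro ζ
    exact ((hF (φ ζ)).hasDerivAt.scomp ζ (hφd ζ)).deriv
  have hfs : ∀ ζ, fs (F (φ ζ)) (deriv (fun ζ => F (φ ζ)) ζ) = a⁻¹ * fs (F (φ ζ)) (deriv F (φ ζ)) := by
    intro ζ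
    rw [hder, Pool.Agent.H36.BP.fs_smul_right, Complex.norm_real, Real.norm_of_nonneg (by positivity)]
  have hφ0 : φ 0 = z₀ := by simp [hφ]
  refine ⟨z₀, a, hz₀n, haL, ?_, ?_⟩
  · have h1 := hfs 0
    rw [hφ0, ← ha, inv_mul_cancel₀ hapos.ne'] at h1
    exact h1
  · intro ζ hζ
    change fs (F (φ ζ)) (deriv (fun ζ => F (φ ζ)) ζ) ≤ 2
    rw [hfs ζ]
    have h1 : u (φ ζ) ≤ u z₀ := hmax (hball ζ hζ)
    have h2 := hkey ζ hζ
    have h3 : fs (F (φ ζ)) (deriv F (φ ζ)) * (1 / 2 - ‖φ ζ‖) ≤ a * d := h1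
    have h4 : 0 ≤ fs (F (φ ζ)) (deriv F (φ ζ)) := Pool.Agent.H36.BP.fs_nonneg _ _
    have h5 : fs (F (φ ζ)) (deriv F (φ ζ)) * (d / 2) ≤ a * d :=
      le_trans (mul_le_mul_of_nonneg_left (by linarith) h4) h3
    have h6 : fs (F (φ ζ)) (deriv F (φ ζ)) ≤ 2 * a := by
      by_contra hc
      push Not at hc
      have : 2 * a * (d / 2) < fs (F (φ ζ)) (deriv F (φ ζ)) * (d / 2) := mul_lt_mul_of_pos_right hc (by linarith)
      linarith
    rw [inv_mul_le_iff₀ hapos]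
    linarith

variable {B : Set ℂ} {δ : ℝ} {G : Fin s → EN N → ℂ} {m : Fin s → ℕ}

theorem sg_bound (E : LData X Λ u B δ G m) {δ' : ℝ} (hδ' : 0 < δ') :
    ∃ L : ℝ, 0 < L ∧ ∀ F ∈ SG X Λ u G, ∀ z ∈ Gd B δ', fs (F z) (deriv F z) ≤ L := by
  have hX := E.cone
  have hu := E.tor
  have hΛ := E.lat
  by_contra hcon
  push Not at hcon
  have hbig : ∀ n : ℕ, ∃ F ∈ SG X Λ u G, ∃ z ∈ Gd B δ', 4 * ((n : ℝ) + 1) / δ' < fs (F z) (deriv F z) :=
    fun n => hcon _ (by positivity)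
  have hX0 : ∀ x ∈ X, x ≠ 0 := fun x hx h => hX.zero_notMem (h ▸ hx)
  obtain ⟨R, hR0, hR⟩ := hΛ.cocompact
  have hbig' : ∀ n : ℕ, ∃ F ∈ SG X Λ u G, ∃ z ∈ Gd B δ', ‖z‖ ≤ R ∧ 4 * ((n : ℝ) + 1) / δ' < fs (F z) (deriv F z) := by
    intro n
    obtain ⟨F, hF, z, hz, hb⟩ := hbig n
    obtain ⟨l, hl, hlR⟩ := hR z
    refine ⟨fun ζ => F (ζ + l), sg_trans hF hl, z - l, ?_, hlR, ?_⟩
    · rw [← BadSet.gd_add E.bad δ' hl, sub_add_cancel]
      exact hz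
    · rw [deriv_comp_add_const, sub_add_cancel]
      show 4 * ((n : ℝ) + 1) / δ' < fs (F (z - l + l)) (deriv F z)
      rw [sub_add_cancel]
      exact hb
  choose F hFS zc hzG hzR hzc using hbig'
  have hresc : ∀ n : ℕ, ∃ (z₀ : ℂ) (a : ℝ), ‖z₀‖ ≤ 1 / 2 ∧ 4 * ((n : ℝ) + 1) < a ∧
      fs (F n (zc n + (δ' : ℂ) * z₀)) (deriv (fun ζ => F n (zc n + (δ' : ℂ) * (z₀ + ((a⁻¹ : ℝ) : ℂ) * ζ))) 0) = 1 ∧
      ∀ ζ ∈ ball (0 : ℂ) (n + 1), fs (F n (zc n + (δ' : ℂ) * (z₀ + ((a⁻¹ : ℝ) : ℂ) * ζ)))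
        (deriv (fun ζ => F n (zc n + (δ' : ℂ) * (z₀ + ((a⁻¹ : ℝ) : ℂ) * ζ))) ζ) ≤ 2 := by
    intro n
    have hd : Differentiable ℂ (fun z => F n (zc n + (δ' : ℂ) * z)) :=
      (hFS n).1.1.comp ((differentiable_id.const_mul _).const_add _)
    refine rescale_fs_half hd (fun z => hX0 _ ((hFS n).1.2.1 _)) n ?_
    have h1 : HasDerivAt (fun z : ℂ => zc n + (δ' : ℂ) * z) (δ' : ℂ) 0 := by
      simpa using ((hasDerivAt_id (0 : ℂ)).const_mul (δ' : ℂ)).const_add (zc n)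
    have h2 : deriv (fun z => F n (zc n + (δ' : ℂ) * z)) 0 = (δ' : ℂ) • deriv (F n) (zc n) := by
      have h3 := (((hFS n).1.1 (zc n + (δ' : ℂ) * 0)).hasDerivAt.scomp 0 h1).deriv
      rw [mul_zero, add_zero] at h3
      exact h3
    rw [h2, Pool.Agent.H36.BP.fs_smul_right, Complex.norm_real, Real.norm_of_nonneg hδ'.le, mul_zero, add_zero]
    have h4 := hzc n
    rw [div_lt_iff₀ hδ'] at h4
    linarith
  choose z₀ a hz₀ ha h1 h2 using hresc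
  have ha0 : ∀ n, 0 < a n := fun n => lt_trans (by positivity) (ha n)
  set K : ℕ → ℂ → EN N := fun n ζ => F n (zc n + (δ' : ℂ) * (z₀ n + (((a n)⁻¹ : ℝ) : ℂ) * ζ)) with hKdef
  set w : ℕ → ℂ := fun n => zc n + (δ' : ℂ) * z₀ n with hwdef
  have hGd : ∀ n, Differentiable ℂ (K n) := by
    intro n
    exact (hFS n).1.1.comp ((((differentiable_id.const_mul _).const_add _).const_mul _).const_add _)
  have hGX : ∀ n ζ, K n ζ ∈ X := fun n ζ => (hFS n).1.2.1 _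
  have hGu : ∀ n ζ, u (K n ζ) - (zc n + (δ' : ℂ) * (z₀ n + (((a n)⁻¹ : ℝ) : ℂ) * ζ)) ∈ Λ := fun n ζ => (hFS n).1.2.2 _
  have hGu2 : ∀ n ζ ζ', u (K n ζ) - u (K n ζ') - (((a n)⁻¹ : ℝ) : ℂ) * ((δ' : ℂ) * (ζ - ζ')) ∈ Λ := by
    intro n ζ ζ'
    have := Λ.sub_mem (hGu n ζ) (hGu n ζ')
    convert this using 1
    ring
  have hGw : ∀ n, u (K n 0) - w n ∈ Λ := by
    intro n
    have := hGu n 0
    rwa [mul_zero, add_zero] at this
  have hG1 : ∀ n, fs (K n 0) (deriv (K n) 0) = 1 := by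
    intro n
    have := h1 n
    rw [hKdef]
    simpa only [mul_zero, add_zero] using this
  have hwz : ∀ n, ‖w n - zc n‖ ≤ δ' / 2 := by
    intro n
    have h3 : w n - zc n = (δ' : ℂ) * z₀ n := by
      rw [hwdef]
      ring
    rw [h3, norm_mul, Complex.norm_real, Real.norm_of_nonneg hδ'.le]
    have := mul_le_mul_of_nonneg_left (hz₀ n) hδ'.le
    linarith
  have hwG : ∀ n, w n ∈ Gd B (δ' / 2) := by
    intro n b hb
    have h3 := hzG n b hb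
    have h4 : ‖zc n - b‖ ≤ ‖w n - b‖ + ‖w n - zc n‖ := by
      have h5 : zc n - b = (w n - b) - (w n - zc n) := by ring
      rw [h5]
      exact norm_sub_le _ _
    have h5 := hwz n
    linarith
  have hwR : ∀ n, w n ∈ closedBall (0 : ℂ) (R + δ' / 2) := by
    intro n
    rw [mem_closedBall_zero_iff]
    have h3 : w n = zc n + (w n - zc n) := by ring
    rw [h3]
    exact (norm_add_le _ _).trans (add_le_add (hzR n) (hwz n))
  set 𝒰 : Ultrafilter ℕ := hyperfilter ℕ with h𝒰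
  have hle : (𝒰 : Filter ℕ) ≤ atTop := Nat.hyperfilter_le_atTop
  obtain ⟨w₀, -, hw₀⟩ := (isCompact_closedBall (0 : ℂ) (R + δ' / 2)).ultrafilter_le_nhds (𝒰.map w) (by
    rw [Filter.le_principal_iff, Ultrafilter.coe_map, Filter.mem_map]
    exact Filter.univ_mem' hwR)
  have hwt : Tendsto w 𝒰 (𝓝 w₀) := hw₀
  have hw₀G : w₀ ∈ Gd B (δ' / 2) :=
    (isClosed_gd (B := B) (δ' / 2)).mem_of_tendsto hwt (Eventually.of_forall hwG)
  have hρ : Tendsto (fun n : ℕ => (n : ℝ) + 1) 𝒰 atTop :=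
    (tendsto_atTop_add_const_right _ _ tendsto_natCast_atTop_atTop).mono_left hle
  have hainv : Tendsto (fun n => (a n)⁻¹) 𝒰 (𝓝 0) := by
    have h3 : Tendsto a 𝒰 atTop := by
      refine tendsto_atTop_mono (fun n => ?_) hρ
      have := ha n
      have h4 : (0 : ℝ) ≤ n := Nat.cast_nonneg n
      linarith
    exact tendsto_inv_atTop_zero.comp h3
  obtain ⟨H, hH, hHX, hpr, hfs, hloc⟩ := Pool.Agent.H62.EF.limit_curves hX (L := 2) two_pos 𝒰 K (fun n : ℕ => (n : ℝ) + 1) hρ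
    (Eventually.of_forall fun n => ⟨(hGd n).differentiableOn, fun z hz => ⟨hGX n z, h2 n z hz⟩⟩)
  have hH0 : ∀ z, H z ≠ 0 := fun z => hX0 _ (hHX z)
  -- the limit is not constant
  have hone : fs (H 0) (deriv H 0) = 1 := by
    have h3 := hfs 0
    simp only [hG1] at h3
    exact tendsto_nhds_unique h3 tendsto_const_nhds |>.symm ▸ rfl
  have hnc : ∃ z w, ∀ c : ℂ, H z ≠ c • H w := by
    by_contra hc
    push Not at hc
    obtain ⟨b, hb⟩ := Pool.Agent.H36.BP.Brody_deriv_line (hH 0) (fun z => hc z 0)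
    have h3 : wd (H 0) (deriv H 0) = 0 := (Pool.Agent.H36.BP.wd_eq_zero (hH0 0)).mpr ⟨b, hb⟩
    unfold fs at hone
    rw [h3, zero_div] at hone
    exact zero_ne_one hone
  -- the limit is in a fibre
  have hnear : ∀ (ζ : ℂ) (ε : ℝ), 0 < ε → ∀ᶠ n in (𝒰 : Filter ℕ), ∃ l ∈ Λ, ‖u (H ζ) - u (K n ζ) - l‖ < ε := by
    intro ζ ε hε
    obtain ⟨δ, hδ, h3⟩ := TorusMap.unif hX hu hε
    have h4 : ∀ᶠ n in (𝒰 : Filter ℕ), dist (pr (K n ζ)) (pr (H ζ)) < δ := (hpr ζ).eventually (ball_mem_nhds _ hδ)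
    filter_upwards [h4] with n hn
    rw [dist_comm] at hn
    exact h3 _ (hHX ζ) _ (hGX n ζ) hn
  have hver : ∀ ζ ζ', u (H ζ) - u (H ζ') ∈ Λ := by
    intro ζ ζ'
    refine hΛ.mem_of_close fun ε hε => ?_
    have h3 := hnear ζ (ε / 3) (by positivity)
    have h4 := hnear ζ' (ε / 3) (by positivity)
    have h5 : ∀ᶠ n in (𝒰 : Filter ℕ), ‖(((a n)⁻¹ : ℝ) : ℂ) * ((δ' : ℂ) * (ζ - ζ'))‖ < ε / 3 := by
      have h6 : Tendsto (fun n => ‖(((a n)⁻¹ : ℝ) : ℂ) * ((δ' : ℂ) * (ζ - ζ'))‖) 𝒰 (𝓝 ‖((0 : ℝ) : ℂ) * ((δ' : ℂ) * (ζ - ζ'))‖) := by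
        refine Tendsto.norm (Tendsto.mul_const _ ?_)
        exact (Complex.continuous_ofReal.tendsto 0).comp hainv
      have h7 : ‖((0 : ℝ) : ℂ) * ((δ' : ℂ) * (ζ - ζ'))‖ < ε / 3 := by
        rw [Complex.ofReal_zero, zero_mul, norm_zero]
        positivity
      exact h6.eventually_lt_const h7
    obtain ⟨n, ⟨l, hl, hn1⟩, ⟨l', hl', hn2⟩, hn3⟩ := (h3.and (h4.and h5)).exists
    have h8 := hGu2 n ζ ζ'
    set q := u (K n ζ) - u (K n ζ') - (((a n)⁻¹ : ℝ) : ℂ) * ((δ' : ℂ) * (ζ - ζ')) with hq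
    refine ⟨l - l' + q, Λ.add_mem (Λ.sub_mem hl hl') h8, ?_⟩
    have h9 : u (H ζ) - u (H ζ') - (l - l' + q) =
        (u (H ζ) - u (K n ζ) - l) - (u (H ζ') - u (K n ζ') - l') + (((a n)⁻¹ : ℝ) : ℂ) * ((δ' : ℂ) * (ζ - ζ')) := by
      rw [hq]
      ring
    rw [h9]
    calc _ ≤ ‖(u (H ζ) - u (K n ζ) - l) - (u (H ζ') - u (K n ζ') - l')‖ + ‖(((a n)⁻¹ : ℝ) : ℂ) * ((δ' : ℂ) * (ζ - ζ'))‖ := norm_add_le _ _
      _ ≤ ‖u (H ζ) - u (K n ζ) - l‖ + ‖u (H ζ') - u (K n ζ') - l'‖ + ‖(((a n)⁻¹ : ℝ) : ℂ) * ((δ' : ℂ) * (ζ - ζ'))‖ := by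
        gcongr
        exact norm_sub_le _ _
      _ < ε := by linarith
  have hH0w : u (H 0) - w₀ ∈ Λ := by
    refine hΛ.mem_of_close fun ε hε => ?_
    have h3 := hnear 0 (ε / 2) (by positivity)
    have h4 : ∀ᶠ n in (𝒰 : Filter ℕ), dist (w n) w₀ < ε / 2 := hwt.eventually (ball_mem_nhds _ (by positivity))
    obtain ⟨n, ⟨l, hl, hn1⟩, hn2⟩ := (h3.and h4).exists
    refine ⟨l + (u (K n 0) - w n), Λ.add_mem hl (hGw n), ?_⟩
    have h5 : u (H 0) - w₀ - (l + (u (K n 0) - w n)) = (u (H 0) - u (K n 0) - l) + (w n - w₀) := by ring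
    rw [h5]
    rw [dist_eq_norm] at hn2
    calc _ ≤ ‖u (H 0) - u (K n 0) - l‖ + ‖w n - w₀‖ := norm_add_le _ _
      _ < ε := by linarith
  have hdi : ∀ i, (∀ z, G i (H z) ≠ 0) ∨ ∀ z, G i (H z) = 0 := by
    intro i
    have h3 := dichotomy isPreconnected_univ (p := fun z => G i (H z) = 0) (by
      intro z₁ _
      obtain ⟨r, φ, ψ, hr, hφ, hψ, hψH, hc⟩ := hloc z₁
      refine ⟨r, hr, ?_⟩
      have h4 : ∀ᶠ n in (𝒰 : Filter ℕ), ∀ z ∈ ball z₁ r, G i (φ n z) ≠ 0 := by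
        filter_upwards [hφ] with n hn z hz
        obtain ⟨c, hc0, hc1⟩ := hn.2 z hz
        rw [hc1, E.hom]
        exact mul_ne_zero (pow_ne_zero _ hc0) ((hFS n).2 i _)
      rcases hurwitz_local (E.dif i) 𝒰 (hφ.mono fun n hn => hn.1) h4 hψ hc with h5 | h5
      · left
        intro z hz
        obtain ⟨c, hc0, hc1⟩ := hψH z hz
        have h6 := h5 z hz
        rw [hc1, E.hom] at h6
        exact (mul_eq_zero.1 h6).resolve_left (pow_ne_zero _ hc0)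
      · right
        intro z hz h6
        obtain ⟨c, hc0, hc1⟩ := hψH z hz
        apply h5 z hz
        rw [hc1, E.hom, h6, mul_zero])
    rcases h3 with h3 | h3
    · exact Or.inr fun z => h3 z trivial
    · exact Or.inl fun z => h3 z trivial
  obtain ⟨b, hb, hHb⟩ := E.fib H hH hHX hdi hver hnc
  have hwb : w₀ - b ∈ Λ := by
    have h3 := Λ.sub_mem hHb hH0w
    convert h3 using 1
    ring
  have hwB : w₀ ∈ B := by
    have h3 := E.bad.inv b hb _ hwb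
    rwa [add_sub_cancel] at h3
  exact gd_notMem (by positivity) hw₀G hwB

theorem sg_lip_gd (E : LData X Λ u B δ G m) {δ' : ℝ} (hδ' : 0 < δ') :
    ∃ L : ℝ, 0 < L ∧ ∀ F ∈ SG X Λ u G, ∀ z ∈ Gd B δ', ∀ w ∈ closedBall z (δ' / 2), dist (pr (F z)) (pr (F w)) ≤ L * ‖z - w‖ := by
  obtain ⟨L, hL, hb⟩ := sg_bound E (δ' := δ' / 4) (by positivity)
  refine ⟨2 * L, by positivity, fun F hF z hz w hw => ?_⟩
  have hsub : ∀ y ∈ ball z (3 * δ' / 4), y ∈ Gd B (δ' / 4) := by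
    intro y hy b hbB
    rw [mem_ball, dist_eq_norm] at hy
    have h1 := hz b hbB
    have h2 : ‖z - b‖ ≤ ‖y - b‖ + ‖y - z‖ := by
      have h3 : z - b = (y - b) - (y - z) := by ring
      rw [h3]
      exact norm_sub_le _ _
    linarith
  have h0 : ∀ y ∈ ball z (3 * δ' / 4), F y ≠ 0 := fun y _ h => E.cone.zero_notMem (h ▸ hF.1.2.1 y)
  refine Pool.Agent.H62.EF.pr_lipschitz isOpen_ball (convex_ball z (3 * δ' / 4)) hF.1.1.differentiableOn h0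
    (fun y hy => hb F hF y (hsub y hy)) z (mem_ball_self (by positivity)) w ?_
  rw [mem_closedBall] at hw
  rw [mem_ball]
  linarith

end Pool.Agent.H86.LS
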